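import Mathlib

/-!
# Integral closedness and the invariant `Γ_P`: definitions and general lemmas
(copied from the hand-in GammaDisproof of helper2, MP_8f98a9_co)
-/

set_option autoImplicit false

open Pointwise

namespace Pool.Agent.Lib.H84G

section Defs

variable {n : ℕ}

/-- The lattice `M = ℤ^n` inside `M_ℝ = ℝ^n`. -/
def toReal (u : Fin n → ℤ) : Fin n → ℝ := fun i => (u i : ℝ)

/-- The lattice points `A ∩ M` of a set `A ⊆ M_ℝ`. -/
def latticePoints (A : Set (Fin n → ℝ)) : Set (Fin n → ℤ) := {u | toReal u ∈ A}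

/-- `P` is a full-dimensional lattice polytope: the convex hull of finitely many lattice points,
not contained in a proper affine subspace. -/
def IsLatticePolytope (P : Set (Fin n → ℝ)) : Prop :=
  (∃ S : Finset (Fin n → ℤ), P = convexHull ℝ (toReal '' (S : Set (Fin n → ℤ)))) ∧
    affineSpan ℝ P = ⊤

/-- Integrally closed: `(P ∩ M) + (rP ∩ M) = (r+1)P ∩ M` for every integer `r ≥ 1`. -/
def IsIntegrallyClosed (P : Set (Fin n → ℝ)) : Prop :=
  ∀ r : ℕ, 1 ≤ r → latticePoints P + latticePoints ((r : ℝ) • P)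
    = latticePoints (((r + 1 : ℕ) : ℝ) • P)

/-- The lattice point `v` is a vertex of `P`. (All vertices of a lattice polytope are lattice
points.) -/
def IsVertex (P : Set (Fin n → ℝ)) (v : Fin n → ℤ) : Prop :=
  toReal v ∈ P.extremePoints ℝ

/-- `u` and `v` are adjacent vertices of `P`: the segment between them is an edge, i.e. a
one-dimensional (exposed) face of `P`. -/
def IsEdge (P : Set (Fin n → ℝ)) (u v : Fin n → ℤ) : Prop :=
  u ≠ v ∧ IsVertex P u ∧ IsVertex P v ∧ IsExposed ℝ P (segment ℝ (toReal u) (toReal v))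

/-- `L(P)`: the minimum of the lattice lengths `#(e ∩ M) - 1` of the edges `e` of `P`. -/
noncomputable def latticeLength (P : Set (Fin n → ℝ)) : ℕ :=
  sInf {k | ∃ u v, IsEdge P u v ∧
    k = (latticePoints (segment ℝ (toReal u) (toReal v))).ncard - 1}

/-- `C(P, v)`: the cone generated by the vectors `u - v`, where `u` runs over the vertices
adjacent to `v`. -/
def vertexCone (P : Set (Fin n → ℝ)) (v : Fin n → ℤ) : Set (Fin n → ℝ) :=
  (PointedCone.hull ℝ {x | ∃ u, IsEdge P v u ∧ x = toReal u - toReal v} :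
    PointedCone ℝ (Fin n → ℝ))

/-- `w` is the primitive generator of a ray (one-dimensional face) of the cone `Q`: its
coordinates have greatest common divisor `1`, it lies in `Q`, and every decomposition of `w` in
`Q` lies on the ray spanned by `w`. -/
def IsRayGenerator (Q : Set (Fin n → ℝ)) (w : Fin n → ℤ) : Prop :=
  Finset.univ.gcd w = 1 ∧ toReal w ∈ Q ∧
    ∀ x ∈ Q, ∀ y ∈ Q, x + y = toReal w → ∃ s : ℝ, 0 ≤ s ∧ x = s • toReal w

/-- `β` belongs to the minimal Hilbert basis of `Q ∩ M`, i.e. it is an irreducible element. -/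
def IsHilbertBasisElement (Q : Set (Fin n → ℝ)) (β : Fin n → ℤ) : Prop :=
  β ≠ 0 ∧ toReal β ∈ Q ∧
    ∀ x y : Fin n → ℤ, toReal x ∈ Q → toReal y ∈ Q → x + y = β → x = 0 ∨ y = 0

/-- The possible values of `∑ a_i` over the representations `u = ∑ a_i w_i` with real `a_i ≥ 0`,
where the `w_i` are the primitive ray generators of `Q`. -/
def htSet (Q : Set (Fin n → ℝ)) (u : Fin n → ℤ) : Set ℝ :=
  {t | ∃ a : (Fin n → ℤ) →₀ ℝ, (∀ w ∈ a.support, IsRayGenerator Q w) ∧ (∀ w, 0 ≤ a w) ∧
    toReal u = a.sum (fun w c => c • toReal w) ∧ t = a.sum (fun _ c => c)}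

/-- `ht(u) = max {∑ a_i}`. (For a strictly convex cone the set is bounded and the supremum is a
maximum.) -/
noncomputable def ht (Q : Set (Fin n → ℝ)) (u : Fin n → ℤ) : ℝ := sSup (htSet Q u)

/-- The possible values of `∑ λ_j` over the representations `u = ∑ λ_j β_j` with integers
`λ_j ≥ 0`, where the `β_j` are the Hilbert basis elements of `Q ∩ M`. -/
def ordSet (Q : Set (Fin n → ℝ)) (u : Fin n → ℤ) : Set ℕ :=
  {k | ∃ c : (Fin n → ℤ) →₀ ℕ, (∀ β ∈ c.support, IsHilbertBasisElement Q β) ∧
    u = c.sum (fun β m => m • β) ∧ k = c.sum (fun _ m => m)}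

/-- `ord(u) = max {∑ λ_j}`. -/
noncomputable def ord (Q : Set (Fin n → ℝ)) (u : Fin n → ℤ) : ℕ := sSup (ordSet Q u)

/-- `S_Q = {∑ a_i w_i : 0 ≤ a_i < 1}`. -/
def SQ (Q : Set (Fin n → ℝ)) : Set (Fin n → ℝ) :=
  {x | ∃ a : (Fin n → ℤ) →₀ ℝ, (∀ w ∈ a.support, IsRayGenerator Q w) ∧
    (∀ w, 0 ≤ a w ∧ a w < 1) ∧ x = a.sum (fun w c => c • toReal w)}

/-- `Γ_Q = max {ht(u) - ord(u) : u ∈ S_Q ∩ M}`. -/
noncomputable def GammaCone (Q : Set (Fin n → ℝ)) : ℝ :=
  sSup {t | ∃ u ∈ latticePoints (SQ Q), t = ht Q u - (ord Q u : ℝ)}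

/-- `Γ_P = max_i Γ_{C(P, u_i)}` over the vertices `u_i` of `P`. -/
noncomputable def Gamma (P : Set (Fin n → ℝ)) : ℝ :=
  sSup {t | ∃ v, IsVertex P v ∧ t = GammaCone (vertexCone P v)}

end Defs

section General

variable {n : ℕ}

@[simp] theorem toReal_zero : toReal (0 : Fin n → ℤ) = 0 := by
  funext i; simp [toReal]

@[simp] theorem toReal_add (u v : Fin n → ℤ) : toReal (u + v) = toReal u + toReal v := by
  funext i; simp [toReal]

@[simp] theorem toReal_sub (u v : Fin n → ℤ) : toReal (u - v) = toReal u - toReal v := by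
  funext i; simp [toReal]

@[simp] theorem toReal_nsmul (m : ℕ) (u : Fin n → ℤ) : toReal (m • u) = (m : ℝ) • toReal u := by
  funext i; simp [toReal]

theorem toReal_injective : Function.Injective (toReal (n := n)) := by
  intro u v h
  funext i
  have := congrFun h i
  simpa [toReal] using this

theorem toReal_sum {ι : Type*} (s : Finset ι) (f : ι → Fin n → ℤ) :
    toReal (∑ i ∈ s, f i) = ∑ i ∈ s, toReal (f i) := by
  classical
  induction s using Finset.induction_on with
  | empty => simp
  | insert a s ha ih => rw [Finset.sum_insert ha, Finset.sum_insert ha, toReal_add, ih]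

/-- The explicit cone generated by a finite family of lattice vectors. -/
def coneOf {ι : Type*} [Fintype ι] (w : ι → Fin n → ℤ) : Set (Fin n → ℝ) :=
  {x | ∃ a : ι → ℝ, (∀ i, 0 ≤ a i) ∧ x = ∑ i, a i • toReal (w i)}

/-- integer dot product -/
def dotZ (h u : Fin n → ℤ) : ℤ := ∑ j, h j * u j

/-- the real dot product with an integer vector -/
def dotR (h : Fin n → ℤ) (x : Fin n → ℝ) : ℝ := ∑ j, (h j : ℝ) * x j

theorem dotR_toReal (h u : Fin n → ℤ) : dotR h (toReal u) = (dotZ h u : ℝ) := by
  simp [dotR, dotZ, toReal]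

theorem dotR_add (h : Fin n → ℤ) (x y : Fin n → ℝ) : dotR h (x + y) = dotR h x + dotR h y := by
  simp [dotR, mul_add, Finset.sum_add_distrib]

theorem dotR_sub (h : Fin n → ℤ) (x y : Fin n → ℝ) : dotR h (x - y) = dotR h x - dotR h y := by
  simp [dotR, mul_sub, Finset.sum_sub_distrib]

theorem dotR_smul (h : Fin n → ℤ) (c : ℝ) (x : Fin n → ℝ) : dotR h (c • x) = c * dotR h x := by
  simp only [dotR, Pi.smul_apply, smul_eq_mul, Finset.mul_sum]
  exact Finset.sum_congr rfl (fun j _ => by ring)

theorem dotR_sum {ι : Type*} (s : Finset ι) (h : Fin n → ℤ) (f : ι → Fin n → ℝ) :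
    dotR h (∑ i ∈ s, f i) = ∑ i ∈ s, dotR h (f i) := by
  classical
  induction s using Finset.induction_on with
  | empty => simp [dotR]
  | insert a s ha ih => rw [Finset.sum_insert ha, Finset.sum_insert ha, dotR_add, ih]

section Cone

variable {ι : Type*} [Fintype ι] {w : ι → Fin n → ℤ}

theorem coneOf_add {x y : Fin n → ℝ} (hx : x ∈ coneOf w) (hy : y ∈ coneOf w) :
    x + y ∈ coneOf w := by
  obtain ⟨a, ha, rfl⟩ := hx
  obtain ⟨b, hb, rfl⟩ := hy
  exact ⟨a + b, fun i => add_nonneg (ha i) (hb i), by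
    simp [add_smul, Finset.sum_add_distrib]⟩

theorem coneOf_smul {x : Fin n → ℝ} {c : ℝ} (hc : 0 ≤ c) (hx : x ∈ coneOf w) :
    c • x ∈ coneOf w := by
  obtain ⟨a, ha, rfl⟩ := hx
  exact ⟨fun i => c * a i, fun i => mul_nonneg hc (ha i), by
    rw [Finset.smul_sum]; exact Finset.sum_congr rfl (fun i _ => by rw [mul_smul])⟩

theorem mem_coneOf [DecidableEq ι] (i : ι) : toReal (w i) ∈ coneOf w := by
  refine ⟨fun j => if j = i then 1 else 0, fun j => by dsimp only; split_ifs <;> norm_num, ?_⟩
  simp [ite_smul]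

theorem zero_mem_coneOf : (0 : Fin n → ℝ) ∈ coneOf w :=
  ⟨0, fun _ => le_rfl, by simp⟩

/-- A functional positive on the generators is nonnegative on the cone and positive off `0`. -/
theorem dotR_nonneg (h : Fin n → ℤ) (hpos : ∀ i, 0 < dotZ h (w i)) {x : Fin n → ℝ}
    (hx : x ∈ coneOf w) : 0 ≤ dotR h x ∧ (dotR h x = 0 → x = 0) := by
  obtain ⟨a, ha, rfl⟩ := hx
  have h1 : dotR h (∑ i, a i • toReal (w i)) = ∑ i, a i * (dotZ h (w i) : ℝ) := by
    rw [dotR_sum]
    exact Finset.sum_congr rfl (fun i _ => by rw [dotR_smul, dotR_toReal])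
  have h2 : ∀ i, 0 ≤ a i * (dotZ h (w i) : ℝ) := fun i =>
    mul_nonneg (ha i) (by exact_mod_cast (hpos i).le)
  rw [h1]
  refine ⟨Finset.sum_nonneg (fun i _ => h2 i), fun h0 => ?_⟩
  rw [Finset.sum_eq_zero_iff_of_nonneg (fun i _ => h2 i)] at h0
  apply Finset.sum_eq_zero
  intro i hi
  have := h0 i hi
  have hne : (dotZ h (w i) : ℝ) ≠ 0 := by exact_mod_cast (hpos i).ne'
  rw [(mul_eq_zero.1 this).resolve_right hne, zero_smul]

theorem dotZ_pos (h : Fin n → ℤ) (hpos : ∀ i, 0 < dotZ h (w i)) {u : Fin n → ℤ}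
    (hu : toReal u ∈ coneOf w) (h0 : u ≠ 0) : 1 ≤ dotZ h u := by
  have h1 := dotR_nonneg h hpos hu
  rw [dotR_toReal] at h1
  have h2 : 0 ≤ dotZ h u := by exact_mod_cast h1.1
  have h3 : dotZ h u ≠ 0 := by
    intro h3
    apply h0
    apply toReal_injective
    rw [toReal_zero]
    exact h1.2 (by exact_mod_cast h3)
  omega

theorem dotZ_add (h u v : Fin n → ℤ) : dotZ h (u + v) = dotZ h u + dotZ h v := by
  simp [dotZ, mul_add, Finset.sum_add_distrib]

/-- Every nonzero lattice point of the cone is a sum of at least one Hilbert basis elements. -/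
theorem exists_hilbert (h : Fin n → ℤ) (hpos : ∀ i, 0 < dotZ h (w i)) :
    ∀ (N : ℕ) (u : Fin n → ℤ), toReal u ∈ coneOf w → u ≠ 0 → dotZ h u ≤ N →
      ∃ c : (Fin n → ℤ) →₀ ℕ, (∀ β ∈ c.support, IsHilbertBasisElement (coneOf w) β) ∧
        u = c.sum (fun β m => m • β) ∧ 1 ≤ c.sum (fun _ m => m) := by
  intro N
  induction N with
  | zero =>
    intro u hu h0 hN
    have := dotZ_pos h hpos hu h0
    push_cast at hN
    omega
  | succ N ih =>
    intro u hu h0 hN
    by_cases hirr : IsHilbertBasisElement (coneOf w) u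
    · refine ⟨Finsupp.single u 1, ?_, ?_, ?_⟩
      · intro β hβ
        have := Finsupp.support_single_subset hβ
        rw [Finset.mem_singleton] at this
        rw [this]; exact hirr
      · rw [Finsupp.sum_single_index] <;> simp
      · rw [Finsupp.sum_single_index]; rfl
    · unfold IsHilbertBasisElement at hirr
      push Not at hirr
      obtain ⟨x, y, hx, hy, hxy, hx0, hy0⟩ := hirr h0 hu
      have h1 := dotZ_pos h hpos hx hx0
      have h2 := dotZ_pos h hpos hy hy0
      have h3 : dotZ h x + dotZ h y = dotZ h u := by rw [← dotZ_add, hxy]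
      push_cast at hN
      obtain ⟨c, hc, hcs, hc1⟩ := ih x hx hx0 (by omega)
      obtain ⟨d, hd, hds, hd1⟩ := ih y hy hy0 (by omega)
      refine ⟨c + d, ?_, ?_, ?_⟩
      · intro β hβ
        have := Finsupp.support_add hβ
        rw [Finset.mem_union] at this
        rcases this with h | h
        · exact hc β h
        · exact hd β h
      · rw [Finsupp.sum_add_index' (by simp) (by intros; rw [add_smul]), ← hcs, ← hds, hxy]
      · rw [Finsupp.sum_add_index' (by simp) (by intros; rfl)]
        omega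


theorem ordSet_bdd (h : Fin n → ℤ) (hpos : ∀ i, 0 < dotZ h (w i)) (u : Fin n → ℤ) :
    ∀ k ∈ ordSet (coneOf w) u, (k : ℤ) ≤ dotZ h u := by
  rintro k ⟨c, hc, rfl, rfl⟩
  have h1 : dotZ h (c.sum fun β m => m • β) = c.sum (fun β m => (m : ℤ) * dotZ h β) := by
    unfold Finsupp.sum
    have : ∀ s : Finset (Fin n → ℤ), dotZ h (∑ a ∈ s, c a • a) = ∑ a ∈ s, (c a : ℤ) * dotZ h a := by
      intro s
      induction s using Finset.induction_on with
      | empty => simp [dotZ]
      | insert a s ha ih =>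
        rw [Finset.sum_insert ha, Finset.sum_insert ha, dotZ_add, ih]
        congr 1
        simp only [dotZ, Pi.smul_apply, nsmul_eq_mul, Finset.mul_sum]
        exact Finset.sum_congr rfl (fun j _ => by ring)
    exact this _
  rw [h1]
  unfold Finsupp.sum
  push_cast
  apply Finset.sum_le_sum
  intro β hβ
  have h2 := dotZ_pos h hpos (hc β hβ).2.1 (hc β hβ).1
  nlinarith [Int.natCast_nonneg (c β)]

/-- Any expression of `u` as a sum of `∑ λ_i` nonzero lattice points of the cone bounds `ord(u)`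
from below. -/
theorem le_ord [DecidableEq ι] (h : Fin n → ℤ) (hpos : ∀ i, 0 < dotZ h (w i)) (lam : ι → ℕ) :
    ∑ i, lam i ≤ ord (coneOf w) (∑ i, lam i • w i) := by
  have hne : ∀ i, w i ≠ 0 := by
    intro i hi
    have := hpos i
    rw [hi] at this
    simp [dotZ] at this
  have key : ∀ s : Finset ι, ∃ k ∈ ordSet (coneOf w) (∑ i ∈ s, lam i • w i), ∑ i ∈ s, lam i ≤ k := by
    intro s
    induction s using Finset.induction_on with
    | empty => exact ⟨0, ⟨0, by simp, by simp, by simp⟩, by simp⟩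
    | insert i s hi ih =>
      obtain ⟨k, ⟨c, hc, hcs, hck⟩, hk⟩ := ih
      obtain ⟨d, hd, hds, hd1⟩ := exists_hilbert h hpos (dotZ h (w i)).toNat (w i)
        (mem_coneOf i) (hne i) (Int.self_le_toNat _)
      refine ⟨(lam i • d + c).sum (fun _ m => m), ⟨lam i • d + c, ?_, ?_, rfl⟩, ?_⟩
      · intro β hβ
        have := Finsupp.support_add hβ
        rw [Finset.mem_union] at this
        rcases this with h | h
        · exact hd β (Finsupp.support_smul h)
        · exact hc β h
      · rw [Finset.sum_insert hi, hcs, Finsupp.sum_add_index' (by simp) (by intros; rw [add_smul])]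
        congr 1
        rw [Finsupp.sum_smul_index (by simp)]
        conv_lhs => rw [hds]
        unfold Finsupp.sum
        rw [Finset.smul_sum]
        exact Finset.sum_congr rfl (fun β _ => by simp only [mul_smul])
      · rw [Finset.sum_insert hi, Finsupp.sum_add_index' (by simp) (by intros; rfl)]
        have : (lam i • d).sum (fun _ m => m) = lam i * d.sum (fun _ m => m) := by
          rw [Finsupp.sum_smul_index (by simp)]
          unfold Finsupp.sum
          rw [Finset.mul_sum]
        rw [this, ← hck]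
        have := Nat.mul_le_mul_left (lam i) hd1
        omega
  obtain ⟨k, hk, hle⟩ := key Finset.univ
  refine hle.trans (le_csSup ?_ hk)
  refine ⟨(dotZ h (∑ i, lam i • w i)).toNat, ?_⟩
  intro m hm
  have := ordSet_bdd h hpos _ m hm
  omega

/-- Ray generators of the cone are among its primitive generators. -/
theorem rayGenerator_mem
    (hprim : ∀ i, Finset.univ.gcd (w i) = 1) {v : Fin n → ℤ}
    (hv : IsRayGenerator (coneOf w) v) : ∃ i, w i = v := by
  classical
  obtain ⟨hv1, hvQ, hext⟩ := hv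
  obtain ⟨a, ha, hav⟩ := hvQ
  have hv0 : v ≠ 0 := by
    rintro rfl
    have : Finset.univ.gcd (0 : Fin n → ℤ) = 0 := Finset.gcd_eq_zero_iff.2 (by simp)
    rw [this] at hv1
    exact absurd hv1 (by norm_num)
  have hex : ∃ i, 0 < a i := by
    by_contra hcon
    push Not at hcon
    apply hv0
    apply toReal_injective
    rw [hav, toReal_zero]
    apply Finset.sum_eq_zero
    intro i _
    rw [le_antisymm (hcon i) (ha i), zero_smul]
  obtain ⟨i, hi⟩ := hex
  refine ⟨i, ?_⟩
  obtain ⟨s, hs, hsv⟩ := hext (a i • toReal (w i)) (coneOf_smul hi.le (mem_coneOf i))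
    (∑ j ∈ Finset.univ.erase i, a j • toReal (w j)) (by
      refine ⟨fun j => if j = i then 0 else a j, fun j => by dsimp only; split_ifs; exacts [le_rfl, ha j], ?_⟩
      rw [← Finset.sum_erase (s := Finset.univ) (a := i)]
      · apply Finset.sum_congr rfl
        intro j hj
        simp only [if_neg (Finset.ne_of_mem_erase hj)]
      · simp)
    (by rw [hav]; exact Finset.add_sum_erase Finset.univ (fun j => a j • toReal (w j)) (Finset.mem_univ i))
  -- `w i = t v` with `t > 0`
  have ht : toReal (w i) = (s / a i) • toReal v := by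
    rw [div_eq_inv_mul, mul_smul, ← hsv, smul_smul, inv_mul_cancel₀ hi.ne', one_smul]
  set t := s / a i with htdef
  have hcoord : ∀ j, (w i j : ℝ) = t * (v j : ℝ) := by
    intro j
    have := congrFun ht j
    simpa [toReal] using this
  -- cross products vanish
  have hcross : ∀ j k, w i j * v k = w i k * v j := by
    intro j k
    have : ((w i j * v k : ℤ) : ℝ) = ((w i k * v j : ℤ) : ℝ) := by
      push_cast
      rw [hcoord j, hcoord k]; ring
    exact_mod_cast this
  -- Bezout for the two primitive vectors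
  have hdvd1 : ∀ k, v k ∣ w i k := by
    intro k
    have h1 : v k ∣ Finset.univ.gcd (fun j => w i k * v j) := by
      apply Finset.dvd_gcd
      intro j _
      rw [← hcross]
      exact Dvd.intro_left _ rfl
    rw [Finset.gcd_mul_left, hv1, mul_one] at h1
    exact (dvd_normalize_iff).1 h1
  have hdvd2 : ∀ k, w i k ∣ v k := by
    intro k
    have h1 : w i k ∣ Finset.univ.gcd (fun j => v k * w i j) := by
      apply Finset.dvd_gcd
      intro j _
      rw [mul_comm, hcross]
      exact Dvd.intro _ rfl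
    rw [Finset.gcd_mul_left, hprim i, mul_one] at h1
    exact (dvd_normalize_iff).1 h1
  have habs : ∀ k, |w i k| = |v k| := by
    intro k
    have h1 := Int.natAbs_dvd_natAbs.2 (hdvd1 k)
    have h2 := Int.natAbs_dvd_natAbs.2 (hdvd2 k)
    have h3 := Nat.dvd_antisymm h2 h1
    rw [Int.abs_eq_natAbs, Int.abs_eq_natAbs, h3]
  have htpos : 0 ≤ t := div_nonneg hs hi.le
  funext j
  have h1 := habs j
  have h2 := hcoord j
  by_cases hvj : v j = 0
  · rw [hvj] at h2 ⊢
    have : (w i j : ℝ) = 0 := by rw [h2]; simp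
    exact_mod_cast this
  · have hvj' : (v j : ℝ) ≠ 0 := by exact_mod_cast hvj
    have h3 : |(w i j : ℝ)| = |(v j : ℝ)| := by exact_mod_cast congrArg (fun z : ℤ => (z : ℝ)) h1
    rw [h2, abs_mul, abs_of_nonneg htpos] at h3
    have h4 : t = 1 := by
      have := abs_pos.2 hvj'
      exact (mul_eq_right₀ this.ne').1 h3
    rw [h4, one_mul] at h2
    exact_mod_cast h2

/-- **Key criterion.** If every real nonnegative representation of a lattice point by the
primitive generators can be replaced by an integral one with at least the same total, then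
`Γ = 0`. -/
theorem gamma_zero [DecidableEq ι] (hinj : Function.Injective w)
    (hprim : ∀ i, Finset.univ.gcd (w i) = 1)
    (h : Fin n → ℤ) (hpos : ∀ i, 0 < dotZ h (w i))
    (hdec : ∀ a : ι → ℝ, (∀ i, 0 ≤ a i) → ∀ u : Fin n → ℤ,
      toReal u = ∑ i, a i • toReal (w i) →
      ∃ lam : ι → ℕ, u = ∑ i, lam i • w i ∧ ∑ i, a i ≤ ∑ i, (lam i : ℝ)) :
    IsGreatest {t | ∃ u ∈ latticePoints (SQ (coneOf w)),
      t = ht (coneOf w) u - (ord (coneOf w) u : ℝ)} 0 := by
  -- representations over the ray generators are representations over `w`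
  have hrep : ∀ a : (Fin n → ℤ) →₀ ℝ, (∀ v ∈ a.support, IsRayGenerator (coneOf w) v) →
      a.sum (fun v c => c • toReal v) = ∑ i, a (w i) • toReal (w i) ∧
      a.sum (fun _ c => c) = ∑ i, a (w i) := by
    intro a ha
    have hsub : a.support ⊆ Finset.univ.image w := by
      intro v hv
      obtain ⟨i, rfl⟩ := rayGenerator_mem hprim (ha v hv)
      exact Finset.mem_image_of_mem w (Finset.mem_univ i)
    constructor
    · rw [Finsupp.sum_of_support_subset a hsub _ (by simp), Finset.sum_image (fun x _ y _ hxy => hinj hxy)]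
    · rw [Finsupp.sum_of_support_subset a hsub _ (by simp), Finset.sum_image (fun x _ y _ hxy => hinj hxy)]
  have hle : ∀ u : Fin n → ℤ, ∀ t ∈ htSet (coneOf w) u, t ≤ (ord (coneOf w) u : ℝ) := by
    rintro u t ⟨a, ha, ha0, hu, rfl⟩
    obtain ⟨h1, h2⟩ := hrep a ha
    rw [h1] at hu
    rw [h2]
    obtain ⟨lam, hlam, hsum⟩ := hdec (fun i => a (w i)) (fun i => ha0 _) u hu
    refine hsum.trans ?_
    have := le_ord h hpos lam
    rw [← hlam] at this
    exact_mod_cast this
  constructor
  · refine ⟨0, ?_, ?_⟩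
    · refine ⟨0, by simp, by simp, by simp⟩
    · have hht : ht (coneOf w) 0 = 0 := by
        have : htSet (coneOf w) 0 = {0} := by
          ext t
          rw [Set.mem_singleton_iff]
          constructor
          · rintro ⟨a, ha, ha0, hu, rfl⟩
            obtain ⟨h1, h2⟩ := hrep a ha
            rw [h1, toReal_zero] at hu
            rw [h2]
            have h3 : dotR h (∑ i, a (w i) • toReal (w i)) = ∑ i, a (w i) * (dotZ h (w i) : ℝ) := by
              rw [dotR_sum]
              exact Finset.sum_congr rfl (fun i _ => by rw [dotR_smul, dotR_toReal])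
            rw [← hu] at h3
            have h4 : dotR h (0 : Fin n → ℝ) = 0 := by simp [dotR]
            rw [h4] at h3
            have h5 : ∀ i, 0 ≤ a (w i) * (dotZ h (w i) : ℝ) := fun i =>
              mul_nonneg (ha0 _) (by exact_mod_cast (hpos i).le)
            have h6 := (Finset.sum_eq_zero_iff_of_nonneg (fun i _ => h5 i)).1 h3.symm
            apply Finset.sum_eq_zero
            intro i hi
            have hne : (dotZ h (w i) : ℝ) ≠ 0 := by exact_mod_cast (hpos i).ne'
            exact (mul_eq_zero.1 (h6 i hi)).resolve_right hne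
          · rintro rfl
            exact ⟨0, by simp, by simp, by simp, by simp⟩
        rw [ht, this, csSup_singleton]
      have hord : ord (coneOf w) 0 = 0 := by
        have : ordSet (coneOf w) 0 = {0} := by
          ext k
          rw [Set.mem_singleton_iff]
          constructor
          · intro hk
            have := ordSet_bdd h hpos 0 k hk
            simp [dotZ] at this
            omega
          · rintro rfl
            exact ⟨0, by simp, by simp, by simp⟩
        rw [ord, this, csSup_singleton]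
      rw [hht, hord]
      simp
  · rintro t ⟨u, _, rfl⟩
    rw [sub_nonpos]
    unfold ht
    by_cases hne : (htSet (coneOf w) u).Nonempty
    · exact csSup_le hne (hle u)
    · rw [Set.not_nonempty_iff_eq_empty.1 hne, Real.sSup_empty]
      exact Nat.cast_nonneg _

end Cone


section Polytope

variable (S : Finset (Fin n → ℤ))

/-- The polytope spanned by `S`. -/
def poly : Set (Fin n → ℝ) := convexHull ℝ (toReal '' (S : Set (Fin n → ℤ)))

variable {S}

theorem mem_poly {y : Fin n → ℝ} (hy : y ∈ poly S) :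
    ∃ t : (Fin n → ℤ) → ℝ, (∀ s ∈ S, 0 ≤ t s) ∧ ∑ s ∈ S, t s = 1 ∧
      y = ∑ s ∈ S, t s • toReal s := by
  classical
  have h1 : toReal '' (S : Set (Fin n → ℤ)) = ((S.image toReal : Finset (Fin n → ℝ)) : Set _) := by
    simp
  rw [poly, h1, Finset.mem_convexHull'] at hy
  obtain ⟨w, hw0, hw1, hw2⟩ := hy
  rw [Finset.sum_image (fun x _ y _ h => toReal_injective h)] at hw1 hw2
  exact ⟨fun s => w (toReal s), fun s hs => hw0 _ (Finset.mem_image_of_mem _ hs), hw1, hw2.symm⟩

theorem mem_poly_of_mem {s : Fin n → ℤ} (hs : s ∈ S) : toReal s ∈ poly S :=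
  subset_convexHull _ _ ⟨s, hs, rfl⟩

theorem dotR_le {f : Fin n → ℤ} {c : ℤ} (hf : ∀ s ∈ S, dotZ f s ≤ c) {y : Fin n → ℝ}
    (hy : y ∈ poly S) : dotR f y ≤ c := by
  obtain ⟨t, ht0, ht1, rfl⟩ := mem_poly hy
  rw [dotR_sum]
  calc ∑ s ∈ S, dotR f (t s • toReal s) ≤ ∑ s ∈ S, t s * (c : ℝ) := by
        apply Finset.sum_le_sum
        intro s hs
        rw [dotR_smul, dotR_toReal]
        exact mul_le_mul_of_nonneg_left (by exact_mod_cast hf s hs) (ht0 s hs)
    _ = c := by rw [← Finset.sum_mul, ht1, one_mul]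

/-- The points of the polytope where a functional attains its maximum. -/
theorem face_repr {f : Fin n → ℤ} {c : ℤ} (hf : ∀ s ∈ S, dotZ f s ≤ c) {y : Fin n → ℝ}
    (hy : y ∈ poly S) (hc : (c : ℝ) ≤ dotR f y) :
    ∃ t : (Fin n → ℤ) → ℝ, (∀ s ∈ S, 0 ≤ t s) ∧ ∑ s ∈ S, t s = 1 ∧
      y = ∑ s ∈ S, t s • toReal s ∧ ∀ s ∈ S, dotZ f s < c → t s = 0 := by
  obtain ⟨t, ht0, ht1, rfl⟩ := mem_poly hy
  refine ⟨t, ht0, ht1, rfl, ?_⟩
  rw [dotR_sum] at hc
  have h1 : ∀ s ∈ S, 0 ≤ t s * ((c : ℝ) - dotZ f s) := by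
    intro s hs
    apply mul_nonneg (ht0 s hs)
    rw [sub_nonneg]
    exact_mod_cast hf s hs
  have h2 : ∑ s ∈ S, t s * ((c : ℝ) - dotZ f s) ≤ 0 := by
    have : ∑ s ∈ S, t s * ((c : ℝ) - dotZ f s) = c - ∑ s ∈ S, dotR f (t s • toReal s) := by
      simp only [mul_sub, Finset.sum_sub_distrib, ← Finset.sum_mul, ht1, one_mul, dotR_smul,
        dotR_toReal]
    rw [this]
    linarith
  have h3 := (Finset.sum_eq_zero_iff_of_nonneg h1).1 (le_antisymm h2 (Finset.sum_nonneg h1))
  intro s hs hlt
  have h4 := h3 s hs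
  have hne : (c : ℝ) - dotZ f s ≠ 0 := by
    have : (dotZ f s : ℝ) < c := by exact_mod_cast hlt
    linarith
  exact (mul_eq_zero.1 h4).resolve_right hne

/-- the continuous linear functional given by an integer vector -/
noncomputable def functional (f : Fin n → ℤ) : StrongDual ℝ (Fin n → ℝ) :=
  LinearMap.toContinuousLinearMap
    { toFun := dotR f
      map_add' := dotR_add f
      map_smul' := fun c x => by rw [dotR_smul]; rfl }

theorem functional_apply (f : Fin n → ℤ) (x : Fin n → ℝ) : functional f x = dotR f x := rfl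

theorem isVertex_of {v f : Fin n → ℤ} (hv : v ∈ S)
    (hf : ∀ s ∈ S, s ≠ v → dotZ f s < dotZ f v) : IsVertex (poly S) v := by
  have hf' : ∀ s ∈ S, dotZ f s ≤ dotZ f v := by
    intro s hs
    by_cases h : s = v
    · rw [h]
    · exact (hf s hs h).le
  apply exposedPoints_subset_extremePoints
  refine ⟨mem_poly_of_mem hv, functional f, ?_⟩
  intro y hy
  simp only [functional_apply, dotR_toReal]
  refine ⟨dotR_le hf' hy, ?_⟩
  intro hle
  obtain ⟨t, ht0, ht1, rfl, ht⟩ := face_repr hf' hy hle
  have h0 : ∀ s ∈ S, s ≠ v → t s = 0 := fun s hs hne => ht s hs (hf s hs hne)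
  rw [Finset.sum_eq_single_of_mem v hv (fun s hs hne => by rw [h0 s hs hne, zero_smul])]
  rw [Finset.sum_eq_single_of_mem v hv h0] at ht1
  rw [ht1, one_smul]

theorem isExposed_of {u v f : Fin n → ℤ} (hu : u ∈ S) (hv : v ∈ S) (hne : u ≠ v)
    (huv : dotZ f u = dotZ f v)
    (hf : ∀ s ∈ S, s ≠ u → s ≠ v → dotZ f s < dotZ f u) :
    IsExposed ℝ (poly S) (segment ℝ (toReal u) (toReal v)) := by
  classical
  intro _
  have hf' : ∀ s ∈ S, dotZ f s ≤ dotZ f u := by
    intro s hs
    by_cases h : s = u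
    · rw [h]
    · by_cases h' : s = v
      · rw [h', huv]
      · exact (hf s hs h h').le
  refine ⟨functional f, ?_⟩
  ext x
  simp only [functional_apply, Set.mem_ofPred_eq]
  constructor
  · intro hx
    refine ⟨?_, ?_⟩
    · exact (convex_convexHull ℝ _).segment_subset (mem_poly_of_mem hu) (mem_poly_of_mem hv) hx
    · intro y hy
      refine (dotR_le hf' hy).trans ?_
      obtain ⟨a, b, ha, hb, hab, rfl⟩ := hx
      rw [dotR_add, dotR_smul, dotR_smul, dotR_toReal, dotR_toReal, ← huv, ← add_mul, hab, one_mul]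
  · rintro ⟨hx, hmax⟩
    have h1 := hmax (toReal u) (mem_poly_of_mem hu)
    rw [dotR_toReal] at h1
    obtain ⟨t, ht0, ht1, rfl, ht⟩ := face_repr hf' hx h1
    have h0 : ∀ s ∈ S, s ∉ ({u, v} : Finset (Fin n → ℤ)) → t s = 0 := by
      intro s hs hn
      rw [Finset.mem_insert, Finset.mem_singleton, not_or] at hn
      exact ht s hs (hf s hs hn.1 hn.2)
    have hsub : ({u, v} : Finset (Fin n → ℤ)) ⊆ S := by
      intro s hs
      rw [Finset.mem_insert, Finset.mem_singleton] at hs
      rcases hs with rfl | rfl <;> assumption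
    rw [← Finset.sum_subset hsub h0, Finset.sum_pair hne] at ht1
    rw [← Finset.sum_subset hsub (fun s hs hn => by rw [h0 s hs hn, zero_smul]),
      Finset.sum_pair hne]
    exact ⟨t u, t v, ht0 u hu, ht0 v hv, ht1, rfl⟩

theorem isVertex_mem {v : Fin n → ℤ} (hv : IsVertex (poly S) v) : v ∈ S := by
  have := extremePoints_convexHull_subset hv
  obtain ⟨s, hs, hsv⟩ := this
  rw [← toReal_injective hsv]
  exact hs

/-- The vertex cone is the explicit cone. -/
theorem vertexCone_eq {ι : Type*} [Fintype ι] {w : ι → Fin n → ℤ} {v : Fin n → ℤ}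
    (h1 : ∀ i, IsEdge (poly S) v (v + w i)) (h2 : ∀ s ∈ S, toReal s - toReal v ∈ coneOf w) :
    vertexCone (poly S) v = coneOf w := by
  apply Set.Subset.antisymm
  · intro x hx
    unfold vertexCone at hx
    rw [SetLike.mem_coe] at hx
    induction hx using Submodule.span_induction with
    | mem y hy =>
      obtain ⟨u, hu, rfl⟩ := hy
      exact h2 u (isVertex_mem hu.2.2.1)
    | zero => exact zero_mem_coneOf
    | add y z _ _ hy hz => exact coneOf_add hy hz
    | smul c y _ hy => exact coneOf_smul c.2 hy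
  · rintro x ⟨a, ha, rfl⟩
    unfold vertexCone
    rw [SetLike.mem_coe]
    apply Submodule.sum_mem
    intro i _
    have : a i • toReal (w i) = (⟨a i, ha i⟩ : {c : ℝ // 0 ≤ c}) • toReal (w i) := rfl
    rw [this]
    apply Submodule.smul_mem
    apply Submodule.subset_span
    exact ⟨v + w i, h1 i, by simp⟩

/-- Every edge has lattice length at least one. -/
theorem one_le_length {u v : Fin n → ℤ} (hne : u ≠ v) :
    1 ≤ (latticePoints (segment ℝ (toReal u) (toReal v))).ncard - 1 := by
  have hfin : (latticePoints (segment ℝ (toReal u) (toReal v))).Finite := by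
    apply (Set.finite_Icc (u ⊓ v) (u ⊔ v)).subset
    rintro x ⟨a, b, ha, hb, hab, hx⟩
    have hx' : ∀ j, a * (u j : ℝ) + b * (v j : ℝ) = (x j : ℝ) := by
      intro j
      have := congrFun hx j
      simpa [toReal] using this
    constructor
    · intro j
      have h1 : ((min (u j) (v j) : ℤ) : ℝ) ≤ (x j : ℝ) := by
        rw [← hx' j]
        have e1 : ((min (u j) (v j) : ℤ) : ℝ) ≤ (u j : ℝ) := by exact_mod_cast min_le_left _ _
        have e2 : ((min (u j) (v j) : ℤ) : ℝ) ≤ (v j : ℝ) := by exact_mod_cast min_le_right _ _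
        have : ((min (u j) (v j) : ℤ) : ℝ) = a * ((min (u j) (v j) : ℤ) : ℝ) + b * ((min (u j) (v j) : ℤ) : ℝ) := by
          rw [← add_mul, hab, one_mul]
        rw [this]
        exact add_le_add (mul_le_mul_of_nonneg_left e1 ha) (mul_le_mul_of_nonneg_left e2 hb)
      exact_mod_cast h1
    · intro j
      have h1 : (x j : ℝ) ≤ ((max (u j) (v j) : ℤ) : ℝ) := by
        rw [← hx' j]
        have e1 : (u j : ℝ) ≤ ((max (u j) (v j) : ℤ) : ℝ) := by exact_mod_cast le_max_left _ _
        have e2 : (v j : ℝ) ≤ ((max (u j) (v j) : ℤ) : ℝ) := by exact_mod_cast le_max_right _ _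
        have : ((max (u j) (v j) : ℤ) : ℝ) = a * ((max (u j) (v j) : ℤ) : ℝ) + b * ((max (u j) (v j) : ℤ) : ℝ) := by
          rw [← add_mul, hab, one_mul]
        rw [this]
        exact add_le_add (mul_le_mul_of_nonneg_left e1 ha) (mul_le_mul_of_nonneg_left e2 hb)
      exact_mod_cast h1
  have hsub : ({u, v} : Set (Fin n → ℤ)) ⊆ latticePoints (segment ℝ (toReal u) (toReal v)) := by
    intro x hx
    rcases hx with rfl | hx
    · exact left_mem_segment ℝ _ _
    · rw [Set.mem_singleton_iff] at hx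
      subst hx
      exact right_mem_segment ℝ _ _
  have := Set.ncard_le_ncard hsub hfin
  rw [Set.ncard_pair hne] at this
  omega

end Polytope

end General

end Pool.Agent.Lib.H84G
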