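import Pool.Agent.Lib.H84G.Conc

/-!
# C1: finite computations for the concrete system
-/

set_option autoImplicit false

namespace Pool.Agent.Lib.H84G

/-- Values. -/
theorem c1_val (N k : ℕ) (j : Option (Fin (N + 1))) :
    cc N k j = 0 ∨ cc N k j = 1 ∨ cc N k j = -1 := by
  rcases j with _ | l
  · right; right; exact cc_none N k
  · by_cases hl : l = 0
    · subst hl
      right; left; exact cc_zero N k
    · rw [cc_some N k l hl]
      have hl' : (l : ℕ) ≠ 0 := by
        intro h
        exact hl (Fin.ext h)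
      unfold av
      rw [if_neg hl']
      split_ifs
      · right; left; norm_num
      · right; right; rfl
      · left; norm_num

/-- The `k` entries `-1` and the `k` entries `1` of `av` at the places `1 .. 2k` cancel
(`2 k ≤ N`). -/
theorem c1_sum_av (N k : ℕ) (h : 2 * k ≤ N) :
    ∑ l ∈ Finset.univ.erase (0 : Fin (N + 1)), av N k l = 0 := by
  have h0 : ∑ l : Fin (N + 1), av N k l
      = ∑ m ∈ Finset.range (N + 1), (if m = 0 then 2 * (k : ℤ) + 2 else if m ≤ k then -1
        else if m ≤ 2 * k then 1 else 0) := by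
    rw [Finset.sum_range]
    rfl
  have h1 : ∑ m ∈ Finset.range (N + 1), (if m = 0 then 2 * (k : ℤ) + 2 else if m ≤ k then -1
        else if m ≤ 2 * k then 1 else 0) = 2 * (k : ℤ) + 2 := by
    rw [Finset.sum_range_succ', if_pos rfl]
    have h2 : ∀ m ∈ Finset.range N, (if m + 1 = 0 then 2 * (k : ℤ) + 2 else if m + 1 ≤ k then -1
        else if m + 1 ≤ 2 * k then 1 else 0)
        = (if m < 2 * k then 1 else 0) - 2 * (if m < k then 1 else 0) := by
      intro m _
      rw [if_neg (Nat.succ_ne_zero m)]
      by_cases a : m < k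
      · rw [if_pos (show m + 1 ≤ k by omega), if_pos (show m < 2 * k by omega), if_pos a]
        norm_num
      · by_cases b : m < 2 * k
        · rw [if_neg (show ¬ m + 1 ≤ k by omega), if_pos (show m + 1 ≤ 2 * k by omega),
            if_pos b, if_neg a]
          norm_num
        · rw [if_neg (show ¬ m + 1 ≤ k by omega), if_neg (show ¬ m + 1 ≤ 2 * k by omega),
            if_neg b, if_neg a]
          norm_num
    rw [Finset.sum_congr rfl h2, Finset.sum_sub_distrib, ← Finset.mul_sum, Finset.sum_boole,
      Finset.sum_boole]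
    have h3 : (Finset.range N).filter (fun m => m < 2 * k) = Finset.range (2 * k) := by
      ext m
      simp only [Finset.mem_filter, Finset.mem_range]
      omega
    have h4 : (Finset.range N).filter (fun m => m < k) = Finset.range k := by
      ext m
      simp only [Finset.mem_filter, Finset.mem_range]
      omega
    rw [h3, h4, Finset.card_range, Finset.card_range]
    push_cast
    ring
  have h5 := Finset.add_sum_erase Finset.univ (av N k) (Finset.mem_univ (0 : Fin (N + 1)))
  have h6 : av N k 0 = 2 * (k : ℤ) + 2 := by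
    unfold av
    rw [if_pos (by simp)]
  rw [h0, h1, h6] at h5
  omega

theorem c1_opt {M : Type*} [AddCommMonoid M] (N : ℕ) (F : Option (Fin (N + 1)) → M) :
    ∑ j, F j = F none + (F (some 0) + ∑ l ∈ Finset.univ.erase (0 : Fin (N + 1)), F (some l)) := by
  rw [Fintype.sum_option]
  congr 1
  rw [Finset.add_sum_erase Finset.univ (fun l => F (some l)) (Finset.mem_univ (0 : Fin (N + 1)))]

/-- `∑ c = -1 + 1 - ∑_{l ≠ 0} av_l`. -/
theorem c1_sum (N k : ℕ) (h : 2 * k ≤ N) : ∑ j, cc N k j = 0 := by
  rw [c1_opt, cc_none, cc_zero]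
  have h1 : ∑ l ∈ Finset.univ.erase (0 : Fin (N + 1)), cc N k (some l)
      = - ∑ l ∈ Finset.univ.erase (0 : Fin (N + 1)), av N k l := by
    rw [← Finset.sum_neg_distrib]
    refine Finset.sum_congr rfl (fun l hl => ?_)
    rw [cc_some N k l (Finset.ne_of_mem_erase hl)]
  rw [h1, c1_sum_av N k h]
  norm_num

/-- `∑ c_j t_j = av - ∑_{l ≠ 0} av_l e_l = av_0 e_0`. -/
theorem c1_rel (N k : ℕ) :
    ∑ j, cc N k j • tt N k j = (2 * (k : ℤ) + 2) • zz N := by
  rw [c1_opt, cc_none, cc_zero, tt_none, tt_zero]
  have h1 : ∑ l ∈ Finset.univ.erase (0 : Fin (N + 1)), cc N k (some l) • tt N k (some l)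
      = ∑ l ∈ Finset.univ.erase (0 : Fin (N + 1)), (- av N k l) • (Pi.single l 1 : Fin (N + 1) → ℤ)
      := by
    refine Finset.sum_congr rfl (fun l hl => ?_)
    rw [cc_some N k l (Finset.ne_of_mem_erase hl), tt_some N k l (Finset.ne_of_mem_erase hl)]
  rw [h1]
  funext m
  simp only [zz, Pi.add_apply, Finset.sum_apply, Pi.smul_apply, smul_eq_mul, Pi.zero_apply,
    Pi.single_apply, mul_ite, mul_one, mul_zero]
  rw [Finset.sum_ite_eq]
  by_cases hm : m = 0
  · subst hm
    rw [if_neg (Finset.notMem_erase _ _), if_pos rfl]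
    have h6 : av N k 0 = 2 * (k : ℤ) + 2 := by
      unfold av
      rw [if_pos (by simp)]
    rw [h6]
    ring
  · rw [if_pos (Finset.mem_erase.mpr ⟨hm, Finset.mem_univ _⟩), if_neg hm]
    ring

/-- `some 0` and `some 1` have `c = 1` (`1 ≤ k`, `2 k ≤ N`). -/
theorem c1_pos (N k : ℕ) (hk : 1 ≤ k) (h : 2 * k ≤ N) :
    2 ≤ (Finset.univ.filter fun j => cc N k j = 1).card := by
  have h1 : 1 < (Finset.univ.filter fun j => cc N k j = 1).card := by
    rw [Finset.one_lt_card]
    refine ⟨some 0, ?_, some ⟨1, by omega⟩, ?_, ?_⟩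
    · rw [Finset.mem_filter]
      exact ⟨Finset.mem_univ _, cc_zero N k⟩
    · rw [Finset.mem_filter]
      refine ⟨Finset.mem_univ _, ?_⟩
      rw [cc_some N k _ (by
        intro hcon
        have := congrArg Fin.val hcon
        simp at this)]
      unfold av
      rw [if_neg (by simp), if_pos hk]
      norm_num
    · intro hcon
      have h2 := Option.some.inj hcon
      have := congrArg Fin.val h2
      simp at this
  exact h1

/-- `none` and `some (k+1)` have `c = -1`. -/
theorem c1_neg (N k : ℕ) (hk : 1 ≤ k) (h : 2 * k ≤ N) :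
    2 ≤ (Finset.univ.filter fun j => cc N k j = -1).card := by
  have h1 : 1 < (Finset.univ.filter fun j => cc N k j = -1).card := by
    rw [Finset.one_lt_card]
    refine ⟨none, ?_, some ⟨k + 1, by omega⟩, ?_, ?_⟩
    · rw [Finset.mem_filter]
      exact ⟨Finset.mem_univ _, cc_none N k⟩
    · rw [Finset.mem_filter]
      refine ⟨Finset.mem_univ _, ?_⟩
      rw [cc_some N k _ (by
        intro hcon
        have := congrArg Fin.val hcon
        simp at this)]
      unfold av
      rw [if_neg (by simp), if_neg (by simp), if_pos (by simp; omega)]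
    · intro hcon
      exact absurd hcon (by simp)
  exact h1

end Pool.Agent.Lib.H84G
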