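import Pool.Agent.Lib.H84G.C1

/-!
# C2: the kernel of the concrete system
-/

set_option autoImplicit false

namespace Pool.Agent.Lib.H84G

/-- Coordinate `l ≠ 0` of the equation: `x_{some l} + x_{some 0} av_l = 0`; coordinate `0`:
`x_{some 0} (2k+2) + y = 0`; and `∑ x = 0` with `c1_sum_av` gives `x_none = - x_{some 0}`. So
`τ = x_{some 0}`. -/
theorem c2_kernel (N k : ℕ) (h : 2 * k ≤ N) (x : Option (Fin (N + 1)) → ℝ) (y : ℝ)
    (hx : ∑ j, x j = 0) (he : ∑ j, x j • toReal (tt N k j) + y • toReal (zz N) = 0) :
    ∃ τ : ℝ, (∀ j, x j = τ * (cc N k j : ℝ)) ∧ y = - τ * ((2 * (k : ℤ) + 2 : ℤ) : ℝ) := by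
  have hco : ∀ i : Fin (N + 1), x (some 0) * (av N k i : ℝ)
      + (if i = 0 then 0 else x (some i)) + y * (if i = 0 then 1 else 0) = 0 := by
    intro i
    have h1 := congrFun he i
    rw [Fintype.sum_option, ← Finset.add_sum_erase _ _ (Finset.mem_univ (0 : Fin (N + 1)))] at h1
    have h2 : ∀ j ∈ Finset.univ.erase (0 : Fin (N + 1)),
        x (some j) • toReal (tt N k (some j)) = x (some j) • toReal (Pi.single j 1) := by
      intro j hj
      rw [tt_some N k j (Finset.ne_of_mem_erase hj)]
    rw [Finset.sum_congr rfl h2, tt_none, tt_zero] at h1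
    have h3 : (∑ j ∈ Finset.univ.erase (0 : Fin (N + 1)),
        x (some j) • toReal (Pi.single j 1)) i = if i = 0 then 0 else x (some i) := by
      rw [Finset.sum_apply]
      by_cases hi : i = 0
      · rw [if_pos hi]
        apply Finset.sum_eq_zero
        intro j hj
        have hj' := Finset.ne_of_mem_erase hj
        simp [toReal, hi, Pi.single_apply, Ne.symm hj']
      · rw [if_neg hi, Finset.sum_eq_single i]
        · simp [toReal]
        · intro j _ hji
          simp [toReal, Pi.single_apply, Ne.symm hji]
        · intro hn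
          exact absurd (Finset.mem_erase.2 ⟨hi, Finset.mem_univ i⟩) hn
    simp only [Pi.add_apply, h3, Pi.smul_apply, smul_eq_mul, toReal_zero, Pi.zero_apply,
      mul_zero, zero_add] at h1
    have h4 : toReal (av N k) i = (av N k i : ℝ) := rfl
    have h5 : toReal (zz N) i = if i = 0 then 1 else 0 := by
      simp [toReal, zz, Pi.single_apply]
    rw [h4, h5] at h1
    exact h1
  have hl : ∀ l : Fin (N + 1), l ≠ 0 → x (some l) = x (some 0) * (cc N k (some l) : ℝ) := by
    intro l hl
    have := hco l
    rw [if_neg hl, if_neg hl] at this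
    rw [cc_some N k l hl]
    push_cast
    linarith
  refine ⟨x (some 0), ?_, ?_⟩
  · intro j
    match j with
    | some l =>
      by_cases h0 : l = 0
      · rw [h0, cc_zero]
        simp
      · exact hl l h0
    | none =>
      rw [cc_none]
      rw [Fintype.sum_option, ← Finset.add_sum_erase _ _ (Finset.mem_univ (0 : Fin (N + 1)))] at hx
      have h6 : ∑ j ∈ Finset.univ.erase (0 : Fin (N + 1)), x (some j) = 0 := by
        have h7 : ∀ j ∈ Finset.univ.erase (0 : Fin (N + 1)),
            x (some j) = - x (some 0) * (av N k j : ℝ) := by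
          intro j hj
          rw [hl j (Finset.ne_of_mem_erase hj), cc_some N k j (Finset.ne_of_mem_erase hj)]
          push_cast
          ring
        rw [Finset.sum_congr rfl h7, ← Finset.mul_sum]
        have h8 := c1_sum_av N k h
        have h9 : (∑ l ∈ Finset.univ.erase (0 : Fin (N + 1)), (av N k l : ℝ)) = 0 := by
          exact_mod_cast h8
        rw [h9, mul_zero]
      rw [h6] at hx
      push_cast
      linarith
  · have := hco 0
    rw [if_pos rfl, if_pos rfl] at this
    have h10 : (av N k 0 : ℝ) = 2 * (k : ℝ) + 2 := by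
      simp [av]
    rw [h10] at this
    push_cast
    linarith

end Pool.Agent.Lib.H84G
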