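import Pool.Agent.Lib.H84G.C2

/-!
# C3: the concrete system is a system
-/

set_option autoImplicit false

namespace Pool.Agent.Lib.H84G

/-- `x_{some l} = u_l` (`l ≠ 0`), `x_{some 0} = 0`, `x_none = - ∑_{l ≠ 0} u_l`, `y = u_0`. -/
theorem c2_gen (N k : ℕ) (u : Fin (N + 1) → ℤ) :
    ∃ (x : Option (Fin (N + 1)) → ℤ) (y : ℤ), ∑ j, x j = 0 ∧
      u = ∑ j, x j • tt N k j + y • zz N := by
  classical
  refine ⟨fun j => match j with
    | none => - ∑ l ∈ Finset.univ.erase (0 : Fin (N + 1)), u l
    | some l => if l = 0 then 0 else u l, u 0, ?_, ?_⟩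
  · rw [Fintype.sum_option, ← Finset.add_sum_erase _ _ (Finset.mem_univ (0 : Fin (N + 1)))]
    have h1 : ∑ l ∈ Finset.univ.erase (0 : Fin (N + 1)), (if l = 0 then 0 else u l)
        = ∑ l ∈ Finset.univ.erase (0 : Fin (N + 1)), u l := by
      apply Finset.sum_congr rfl
      intro l hl
      rw [if_neg (Finset.ne_of_mem_erase hl)]
    simp only [if_true, h1]
    ring
  · rw [Fintype.sum_option, ← Finset.add_sum_erase _ _ (Finset.mem_univ (0 : Fin (N + 1)))]
    have h1 : ∑ l ∈ Finset.univ.erase (0 : Fin (N + 1)), (if l = 0 then 0 else u l) • tt N k (some l)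
        = ∑ l ∈ Finset.univ.erase (0 : Fin (N + 1)), u l • (Pi.single l 1 : Fin (N + 1) → ℤ) := by
      apply Finset.sum_congr rfl
      intro l hl
      rw [if_neg (Finset.ne_of_mem_erase hl), tt_some N k l (Finset.ne_of_mem_erase hl)]
    simp only [if_true, h1, tt_none, smul_zero, zero_smul, zero_add]
    rw [zz, Finset.sum_erase_add Finset.univ
      (fun l => u l • (Pi.single l 1 : Fin (N + 1) → ℤ)) (Finset.mem_univ (0 : Fin (N + 1)))]
    funext i
    rw [Finset.sum_apply, Finset.sum_eq_single i]
    · simp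
    · intro j _ hji
      simp [Ne.symm hji]
    · intro hn
      exact absurd (Finset.mem_univ i) hn

/-- `κ = - φ none`, `f_l = φ (some l) - φ none` (`l ≠ 0`), `f_0 = φz`. Check at `some 0`:
`dotZ f av = (2k+2) φz + ∑_{l ≠ 0} av_l (φ (some l) - φ none)
= ∑ c φ - ∑_{l ≠ 0} c_{some l} φ (some l) + 0 = φ (some 0) - φ none`, by `c1_sum_av`. -/
theorem c2_func (N k : ℕ) (h : 2 * k ≤ N) (φ : Option (Fin (N + 1)) → ℤ) (φz : ℤ)
    (hφ : ∑ j, cc N k j * φ j = (2 * (k : ℤ) + 2) * φz) :
    ∃ (f : Fin (N + 1) → ℤ) (κ : ℤ), (∀ j, dotZ f (tt N k j) = φ j + κ) ∧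
      dotZ f (zz N) = φz := by
  classical
  refine ⟨fun l => if l = 0 then φz else φ (some l) - φ none, - φ none, ?_, ?_⟩
  · intro j
    match j with
    | none =>
      rw [tt_none, dotZ_zero]
      ring
    | some l =>
      by_cases h0 : l = 0
      · subst h0
        rw [tt_zero]
        unfold dotZ
        rw [← Finset.add_sum_erase _ _ (Finset.mem_univ (0 : Fin (N + 1)))]
        have h1 : ∑ l ∈ Finset.univ.erase (0 : Fin (N + 1)),
            (if l = 0 then φz else φ (some l) - φ none) * av N k l
            = ∑ l ∈ Finset.univ.erase (0 : Fin (N + 1)), (av N k l * φ (some l))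
              - φ none * ∑ l ∈ Finset.univ.erase (0 : Fin (N + 1)), av N k l := by
          rw [Finset.mul_sum, ← Finset.sum_sub_distrib]
          apply Finset.sum_congr rfl
          intro l hl
          rw [if_neg (Finset.ne_of_mem_erase hl)]
          ring
        rw [h1, c1_sum_av N k h]
        rw [Fintype.sum_option, ← Finset.add_sum_erase _ _ (Finset.mem_univ (0 : Fin (N + 1)))]
          at hφ
        have h2 : ∑ l ∈ Finset.univ.erase (0 : Fin (N + 1)), cc N k (some l) * φ (some l)
            = - ∑ l ∈ Finset.univ.erase (0 : Fin (N + 1)), (av N k l * φ (some l)) := by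
          rw [← Finset.sum_neg_distrib]
          apply Finset.sum_congr rfl
          intro l hl
          rw [cc_some N k l (Finset.ne_of_mem_erase hl)]
          ring
        rw [h2, cc_none, cc_zero] at hφ
        have h3 : av N k 0 = 2 * (k : ℤ) + 2 := by simp [av]
        simp only [if_true, h3]
        linarith
      · rw [tt_some N k l h0]
        unfold dotZ
        rw [Finset.sum_eq_single l]
        · simp [h0]
          ring
        · intro j _ hj
          simp [hj]
        · intro hn
          exact absurd (Finset.mem_univ l) hn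
  · unfold dotZ zz
    rw [Finset.sum_eq_single (0 : Fin (N + 1))]
    · simp
    · intro j _ hj
      simp [hj]
    · intro hn
      exact absurd (Finset.mem_univ 0) hn

theorem c2_sys (N k : ℕ) (hk : 1 ≤ k) (h : 2 * k ≤ N) :
    Sys (tt N k) (zz N) (cc N k) (2 * (k : ℤ) + 2) where
  two_le := by omega
  c_val := c1_val N k
  sum_c := c1_sum N k h
  rel := c1_rel N k
  pos := c1_pos N k hk h
  neg := c1_neg N k hk h
  kernel := c2_kernel N k h
  gen := c2_gen N k
  func := c2_func N k h

end Pool.Agent.Lib.H84G
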