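import Pool.Agent.Lib.H84G.Sys

/-!
# The concrete system in dimension `N + 1`, `2 k ≤ N`

`av = (2k+2; -1, .., -1, 1, .., 1, 0, .., 0)` (`k` entries `-1`, then `k` entries `1`);
`z = e_0`; the points `t` are `0`, `av` and the unit vectors `e_l`, `l ≠ 0`.
-/

set_option autoImplicit false

namespace Pool.Agent.Lib.H84G

/-- The vector `av`. -/
def av (N k : ℕ) (l : Fin (N + 1)) : ℤ :=
  if (l : ℕ) = 0 then 2 * k + 2 else if (l : ℕ) ≤ k then -1 else if (l : ℕ) ≤ 2 * k then 1 else 0

/-- The points: `none ↦ 0`, `some 0 ↦ av`, `some l ↦ e_l`. -/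
def tt (N k : ℕ) : Option (Fin (N + 1)) → Fin (N + 1) → ℤ
  | none => 0
  | some l => if l = 0 then av N k else Pi.single l 1

/-- The vertical direction. -/
def zz (N : ℕ) : Fin (N + 1) → ℤ := Pi.single 0 1

/-- The coefficients of the relation. -/
def cc (N k : ℕ) : Option (Fin (N + 1)) → ℤ
  | none => -1
  | some l => if l = 0 then 1 else - av N k l

theorem tt_none (N k : ℕ) : tt N k none = 0 := rfl

theorem tt_zero (N k : ℕ) : tt N k (some 0) = av N k := by simp [tt]

theorem tt_some (N k : ℕ) (l : Fin (N + 1)) (hl : l ≠ 0) : tt N k (some l) = Pi.single l 1 := by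
  simp [tt, hl]

theorem cc_none (N k : ℕ) : cc N k none = -1 := rfl

theorem cc_zero (N k : ℕ) : cc N k (some 0) = 1 := by simp [cc]

theorem cc_some (N k : ℕ) (l : Fin (N + 1)) (hl : l ≠ 0) : cc N k (some l) = - av N k l := by
  simp [cc, hl]

end Pool.Agent.Lib.H84G
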