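import Pool.Agent.Lib.H84G.Sys

/-!
# M1: the mirrored system (the top of `Q` seen as the bottom)
-/

set_option autoImplicit false

namespace Pool.Agent.Lib.H84G

variable {n : ℕ} {J : Type} [Fintype J] [DecidableEq J]

/-- Fields: `rel`: `∑ (-c_j)(t_j + z) = -s z - 0`; `pos`, `neg` are exchanged (`-c = 1 ↔ c = -1`);
`kernel`: `∑ x_j (t_j + z) - y z = ∑ x_j t_j + (-y) z` as `∑ x = 0`, so `x = τ c`, `-y = -τ s`;
take `-τ`. `gen`: as `∑ x = 0`, take `(x, -y)`. `func`: apply `h.func φ (-φz)` and take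
`κ - φz`. -/
theorem m1_mirror {t : J → Fin n → ℤ} {z : Fin n → ℤ} {c : J → ℤ} {s : ℤ} (h : Sys t z c s) :
    Sys (fun j => t j + z) (-z) (fun j => - c j) s where
  two_le := h.two_le
  c_val := fun j => by rcases h.c_val j with h | h | h <;> simp [h]
  sum_c := by rw [Finset.sum_neg_distrib, h.sum_c, neg_zero]
  rel := by
    simp only [smul_add, neg_smul, Finset.sum_add_distrib, Finset.sum_neg_distrib]
    rw [h.rel, ← Finset.sum_smul, h.sum_c, zero_smul, neg_zero, add_zero, smul_neg]
  pos := by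
    have : (Finset.univ.filter fun j => - c j = 1) = Finset.univ.filter fun j => c j = -1 := by
      ext j
      simp only [Finset.mem_filter, Finset.mem_univ, true_and]
      omega
    rw [this]
    exact h.neg
  neg := by
    have : (Finset.univ.filter fun j => - c j = -1) = Finset.univ.filter fun j => c j = 1 := by
      ext j
      simp only [Finset.mem_filter, Finset.mem_univ, true_and]
      omega
    rw [this]
    exact h.pos
  kernel := fun x y hx hxy => by
    have h1 : ∑ j, x j • toReal (t j) + (-y) • toReal z = 0 := by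
      rw [← hxy]
      simp only [toReal_add, toReal_neg, smul_add, Finset.sum_add_distrib, smul_neg, neg_smul]
      rw [← Finset.sum_smul, hx, zero_smul, add_zero]
    obtain ⟨τ, h2, h3⟩ := h.kernel x (-y) hx h1
    refine ⟨-τ, fun j => ?_, ?_⟩
    · rw [h2 j]; push_cast; ring
    · linarith
  gen := fun u => by
    obtain ⟨x, y, h1, h2⟩ := h.gen u
    refine ⟨x, -y, h1, ?_⟩
    simp only [smul_add, Finset.sum_add_distrib, smul_neg, neg_smul, neg_neg]
    rw [← Finset.sum_smul, h1, zero_smul, add_zero]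
    exact h2
  func := fun φ φz hφ => by
    obtain ⟨f, κ, h1, h2⟩ := h.func φ (-φz) (by
      rw [mul_neg, ← hφ, ← Finset.sum_neg_distrib]
      exact Finset.sum_congr rfl fun j _ => by ring)
    refine ⟨f, κ - φz, fun j => ?_, ?_⟩
    · rw [dotZ_add, h1 j, h2]; ring
    · rw [dotZ_neg, h2, neg_neg]

theorem m1_vset (k : ℕ) (t : J → Fin n → ℤ) (z : Fin n → ℤ) :
    vset k (fun j => t j + z) (-z) = vset k t z := by
  ext v
  rw [mem_vset, mem_vset]
  constructor
  · rintro ⟨j, h | h⟩
    · exact ⟨j, Or.inr h⟩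
    · exact ⟨j, Or.inl (by rw [h, add_neg_cancel_right])⟩
  · rintro ⟨j, h | h⟩
    · exact ⟨j, Or.inr (by rw [h, add_neg_cancel_right])⟩
    · exact ⟨j, Or.inl h⟩

end Pool.Agent.Lib.H84G
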