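import Pool.Agent.Lib.H84G.F1
import Pool.Agent.Lib.H84G.M1

/-!
# E1: vertices and edges of `k Q`
-/

set_option autoImplicit false

namespace Pool.Agent.Lib.H84G

variable {n : ℕ} {J : Type} [Fintype J] [DecidableEq J]

theorem e1_lt {g s v : Fin n → ℤ} (h : dotZ g v < dotZ g s) : dotZ (-g) s < dotZ (-g) v := by
  rw [dotZ_neg_left, dotZ_neg_left]
  omega

/-- `isVertex_of` with `f = -g`, `g` from `f1_pos h i`: for `s = k t_j`, `j ≠ i` (else `s = v`):
`g s ≥ k (g (t i) + 1)`; for `s = k (t_j + z)`: `g s = k g (t j) + k ≥ k g (t i) + k`. -/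
theorem e1_vertex {t : J → Fin n → ℤ} {z : Fin n → ℤ} {c : J → ℤ} {s : ℤ} (h : Sys t z c s)
    (k : ℕ) (hk : 1 ≤ k) (i : J) : IsVertex (poly (vset k t z)) (k • t i) := by
  obtain ⟨g, hgz, hg⟩ := f1_pos h i
  have hk' : (1 : ℤ) ≤ (k : ℤ) := by exact_mod_cast hk
  refine isVertex_of (f := -g) (mem_vset.mpr ⟨i, Or.inl rfl⟩) ?_
  intro x hx hne
  apply e1_lt
  obtain ⟨j, rfl | rfl⟩ := mem_vset.mp hx
  · have hji : j ≠ i := by
      rintro rfl
      exact hne rfl
    rw [dotZ_nsmul, dotZ_nsmul]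
    have := hg j hji
    nlinarith
  · rw [dotZ_nsmul, dotZ_nsmul, dotZ_add, hgz]
    have h1 : dotZ g (t i) ≤ dotZ g (t j) := by
      by_cases hji : j = i
      · rw [hji]
      · have := hg j hji
        omega
    nlinarith

/-- `e1_vertex` for the mirrored system (`m1_mirror`, `m1_vset`). -/
theorem e1_vertex_top {t : J → Fin n → ℤ} {z : Fin n → ℤ} {c : J → ℤ} {s : ℤ} (h : Sys t z c s)
    (k : ℕ) (hk : 1 ≤ k) (i : J) : IsVertex (poly (vset k t z)) (k • (t i + z)) := by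
  have h1 := e1_vertex (m1_mirror h) k hk i
  rw [m1_vset] at h1
  exact h1

/-- `k t_i ≠ k t_j` by `f1_prim`; `isExposed_of` with `f = -g`, `g` from `f1_edge`. -/
theorem e1_edge {t : J → Fin n → ℤ} {z : Fin n → ℤ} {c : J → ℤ} {s : ℤ} (h : Sys t z c s)
    (k : ℕ) (hk : 1 ≤ k) (i j l₀ : J) (hij : i ≠ j) (hi : l₀ ≠ i) (hj : l₀ ≠ j) (hc : c l₀ = 1) :
    IsEdge (poly (vset k t z)) (k • t i) (k • t j) := by
  have hk' : (1 : ℤ) ≤ (k : ℤ) := by exact_mod_cast hk
  have hne : k • t i ≠ k • t j := by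
    intro heq
    obtain ⟨f, hf⟩ := f1_prim h i j hij
    have h1 : dotZ f (k • t i) = dotZ f (k • t j) := by rw [heq]
    rw [dotZ_nsmul, dotZ_nsmul, hf] at h1
    nlinarith
  refine ⟨hne, e1_vertex h k hk i, e1_vertex h k hk j, ?_⟩
  obtain ⟨g, hgz, hgj, hg⟩ := f1_edge h i j l₀ hij hi hj hc
  refine isExposed_of (f := -g) (mem_vset.mpr ⟨i, Or.inl rfl⟩) (mem_vset.mpr ⟨j, Or.inl rfl⟩)
    hne ?_ ?_
  · rw [dotZ_neg_left, dotZ_neg_left, dotZ_nsmul, dotZ_nsmul, hgj]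
  · intro x hx hxi hxj
    apply e1_lt
    obtain ⟨l, rfl | rfl⟩ := mem_vset.mp hx
    · have hli : l ≠ i := by
        rintro rfl
        exact hxi rfl
      have hlj : l ≠ j := by
        rintro rfl
        exact hxj rfl
      rw [dotZ_nsmul, dotZ_nsmul]
      have := hg l hli hlj
      nlinarith
    · rw [dotZ_nsmul, dotZ_nsmul, dotZ_add, hgz]
      have h1 : dotZ g (t i) ≤ dotZ g (t l) := by
        by_cases hli : l = i
        · rw [hli]
        · by_cases hlj : l = j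
          · rw [hlj, hgj]
          · have := hg l hli hlj
            omega
      nlinarith

/-- `k z ≠ 0` by `f1_pos` (`dotZ g z = 1`); `isExposed_of` with `f = -g`, `g` from `f1_vert`. -/
theorem e1_vert {t : J → Fin n → ℤ} {z : Fin n → ℤ} {c : J → ℤ} {s : ℤ} (h : Sys t z c s)
    (k : ℕ) (hk : 1 ≤ k) (i : J) :
    IsEdge (poly (vset k t z)) (k • t i) (k • (t i + z)) := by
  have hk' : (1 : ℤ) ≤ (k : ℤ) := by exact_mod_cast hk
  have hne : k • t i ≠ k • (t i + z) := by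
    intro heq
    obtain ⟨f, hf, -⟩ := f1_pos h i
    have h1 : dotZ f (k • t i) = dotZ f (k • (t i + z)) := by rw [← heq]
    rw [dotZ_nsmul, dotZ_nsmul, dotZ_add, hf] at h1
    nlinarith
  refine ⟨hne, e1_vertex h k hk i, e1_vertex_top h k hk i, ?_⟩
  obtain ⟨g, hgz, hg⟩ := f1_vert h i
  refine isExposed_of (f := -g) (mem_vset.mpr ⟨i, Or.inl rfl⟩) (mem_vset.mpr ⟨i, Or.inr rfl⟩)
    hne ?_ ?_
  · rw [dotZ_neg_left, dotZ_neg_left, dotZ_nsmul, dotZ_nsmul, dotZ_add, hgz]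
    ring
  · intro x hx hxi hxj
    apply e1_lt
    obtain ⟨l, rfl | rfl⟩ := mem_vset.mp hx
    · have hli : l ≠ i := by
        rintro rfl
        exact hxi rfl
      rw [dotZ_nsmul, dotZ_nsmul]
      have := hg l hli
      nlinarith
    · have hli : l ≠ i := by
        rintro rfl
        exact hxj rfl
      rw [dotZ_nsmul, dotZ_nsmul, dotZ_add, hgz]
      have := hg l hli
      nlinarith

end Pool.Agent.Lib.H84G
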