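import Pool.Agent.Lib.H84G.Sys

/-!
# F1: integer functionals on a system

All four statements follow from `Sys.func` with explicit values `φ`.
* `f1_pos`: choose `l₀ ≠ i` with `c l₀ = 1` (possible by `pos`), `φ = 1 - [l = i] +
  (s + c i) [l = l₀]`, `φz = 1`; then `∑ c φ = 0 - c i + (s + c i) = s`.
* `f1_edge`: `φ = 1 - [l = i] - [l = j] + (s + c i + c j) [l = l₀]`, `φz = 1`
  (`1 + s + c i + c j ≥ 1`).
* `f1_vert`: if `c i = 0`: `φ = 1 - [l = i]`; else choose `l₁ ≠ i` with `c l₁ = c i`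
  (`pos` or `neg`) and `φ = 1 - [l = i] + [l = l₁]`; `φz = 0`.
* `f1_prim`: choose `p ≠ i, j` with `c p ≠ 0` (there are at least four indices with `c ≠ 0`),
  `φ = [l = j] - c p * c j [l = p]`, `φz = 0` (`c p * c p = 1`).
-/

set_option autoImplicit false

namespace Pool.Agent.Lib.H84G

variable {n : ℕ} {J : Type} [Fintype J] [DecidableEq J]

omit [DecidableEq J] in
theorem f1_ex_pos {t : J → Fin n → ℤ} {z : Fin n → ℤ} {c : J → ℤ} {s : ℤ} (h : Sys t z c s)
    (i : J) : ∃ l, l ≠ i ∧ c l = 1 := by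
  classical
  have h1 : 1 < (Finset.univ.filter fun j => c j = 1).card := h.pos
  obtain ⟨a, ha, b, hb, hab⟩ := Finset.one_lt_card.mp h1
  rw [Finset.mem_filter] at ha hb
  by_cases hai : a = i
  · refine ⟨b, ?_, hb.2⟩
    rintro rfl
    exact hab hai
  · exact ⟨a, hai, ha.2⟩

omit [DecidableEq J] in
theorem f1_ex_neg {t : J → Fin n → ℤ} {z : Fin n → ℤ} {c : J → ℤ} {s : ℤ} (h : Sys t z c s)
    (i : J) : ∃ l, l ≠ i ∧ c l = -1 := by
  classical
  have h1 : 1 < (Finset.univ.filter fun j => c j = -1).card := h.neg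
  obtain ⟨a, ha, b, hb, hab⟩ := Finset.one_lt_card.mp h1
  rw [Finset.mem_filter] at ha hb
  by_cases hai : a = i
  · refine ⟨b, ?_, hb.2⟩
    rintro rfl
    exact hab hai
  · exact ⟨a, hai, ha.2⟩

theorem f1_pos {t : J → Fin n → ℤ} {z : Fin n → ℤ} {c : J → ℤ} {s : ℤ} (h : Sys t z c s) (i : J) :
    ∃ f : Fin n → ℤ, dotZ f z = 1 ∧ ∀ j, j ≠ i → dotZ f (t i) + 1 ≤ dotZ f (t j) := by
  obtain ⟨l₀, hl, hc⟩ := f1_ex_pos h i
  have h2 := h.two_le
  have hci := h.c_val i
  obtain ⟨f, κ, hf, hz⟩ := h.func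
    (fun j => 1 - (if j = i then 1 else 0) + (if j = l₀ then s + c i else 0)) 1 (by
      simp only [mul_add, mul_sub, mul_ite, mul_one, mul_zero, Finset.sum_add_distrib,
        Finset.sum_sub_distrib, Finset.sum_ite_eq', Finset.mem_univ, if_true, h.sum_c, hc]
      ring)
  refine ⟨f, hz, ?_⟩
  intro j hj
  rw [hf, hf]
  simp only [if_true, if_neg hl.symm, if_neg hj]
  by_cases hjl : j = l₀
  · simp only [if_pos hjl]
    omega
  · simp only [if_neg hjl]
    omega

theorem f1_edge {t : J → Fin n → ℤ} {z : Fin n → ℤ} {c : J → ℤ} {s : ℤ} (h : Sys t z c s)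
    (i j l₀ : J) (hij : i ≠ j) (hi : l₀ ≠ i) (hj : l₀ ≠ j) (hc : c l₀ = 1) :
    ∃ f : Fin n → ℤ, dotZ f z = 1 ∧ dotZ f (t j) = dotZ f (t i) ∧
      ∀ l, l ≠ i → l ≠ j → dotZ f (t i) + 1 ≤ dotZ f (t l) := by
  have h2 := h.two_le
  have hci := h.c_val i
  have hcj := h.c_val j
  obtain ⟨f, κ, hf, hz⟩ := h.func
    (fun l => 1 - (if l = i then 1 else 0) - (if l = j then 1 else 0)
      + (if l = l₀ then s + c i + c j else 0)) 1 (by
      simp only [mul_add, mul_sub, mul_ite, mul_one, mul_zero, Finset.sum_add_distrib,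
        Finset.sum_sub_distrib, Finset.sum_ite_eq', Finset.mem_univ, if_true, h.sum_c, hc]
      ring)
  refine ⟨f, hz, ?_, ?_⟩
  · rw [hf, hf]
    simp only [if_true, if_neg hi.symm, if_neg hj.symm, if_neg hij, if_neg hij.symm]
    ring
  · intro l hli hlj
    rw [hf, hf]
    simp only [if_true, if_neg hi.symm, if_neg hij, if_neg hli, if_neg hlj]
    by_cases hll : l = l₀
    · simp only [if_pos hll]
      omega
    · simp only [if_neg hll]
      omega

theorem f1_vert {t : J → Fin n → ℤ} {z : Fin n → ℤ} {c : J → ℤ} {s : ℤ} (h : Sys t z c s) (i : J) :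
    ∃ f : Fin n → ℤ, dotZ f z = 0 ∧ ∀ j, j ≠ i → dotZ f (t i) + 1 ≤ dotZ f (t j) := by
  by_cases hci : c i = 0
  · obtain ⟨f, κ, hf, hz⟩ := h.func (fun j => 1 - (if j = i then 1 else 0)) 0 (by
      simp only [mul_sub, mul_ite, mul_one, mul_zero,
        Finset.sum_sub_distrib, Finset.sum_ite_eq', Finset.mem_univ, if_true, h.sum_c, hci]
      ring)
    refine ⟨f, hz, ?_⟩
    intro j hj
    rw [hf, hf]
    simp only [if_true, if_neg hj]
    omega
  · obtain ⟨l₁, hl, hc⟩ : ∃ l, l ≠ i ∧ c l = c i := by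
      rcases h.c_val i with h0 | h1 | h1
      · exact absurd h0 hci
      · rw [h1]
        exact f1_ex_pos h i
      · rw [h1]
        exact f1_ex_neg h i
    obtain ⟨f, κ, hf, hz⟩ := h.func
      (fun j => 1 - (if j = i then 1 else 0) + (if j = l₁ then 1 else 0)) 0 (by
      simp only [mul_add, mul_sub, mul_ite, mul_one, mul_zero, Finset.sum_add_distrib,
        Finset.sum_sub_distrib, Finset.sum_ite_eq', Finset.mem_univ, if_true, h.sum_c, hc]
      ring)
    refine ⟨f, hz, ?_⟩
    intro j hj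
    rw [hf, hf]
    simp only [if_true, if_neg hj, if_neg hl.symm]
    by_cases hjl : j = l₁
    · simp only [if_pos hjl]
      omega
    · simp only [if_neg hjl]
      omega

theorem f1_prim {t : J → Fin n → ℤ} {z : Fin n → ℤ} {c : J → ℤ} {s : ℤ} (h : Sys t z c s)
    (i j : J) (hij : i ≠ j) : ∃ f : Fin n → ℤ, dotZ f (t j) = dotZ f (t i) + 1 := by
  obtain ⟨p, hpi, hpj, hcp⟩ : ∃ p, p ≠ i ∧ p ≠ j ∧ c p * c p = 1 := by
    have h1 : 1 < (Finset.univ.filter fun j => c j = 1).card := h.pos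
    obtain ⟨a, ha, b, hb, hab⟩ := Finset.one_lt_card.mp h1
    rw [Finset.mem_filter] at ha hb
    have h2 : 1 < (Finset.univ.filter fun j => c j = -1).card := h.neg
    obtain ⟨a', ha', b', hb', hab'⟩ := Finset.one_lt_card.mp h2
    rw [Finset.mem_filter] at ha' hb'
    by_contra hcon
    push Not at hcon
    have e1 := hcon a
    have e2 := hcon b
    have e3 := hcon a'
    have e4 := hcon b'
    have haa' : a ≠ a' := by
      rintro rfl
      have := ha.2.symm.trans ha'.2
      omega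
    have hab2 : a ≠ b' := by
      rintro rfl
      have := ha.2.symm.trans hb'.2
      omega
    have hba' : b ≠ a' := by
      rintro rfl
      have := hb.2.symm.trans ha'.2
      omega
    have hbb' : b ≠ b' := by
      rintro rfl
      have := hb.2.symm.trans hb'.2
      omega
    have q1 : a = i ∨ a = j := by
      by_contra hc
      push Not at hc
      exact e1 hc.1 hc.2 (by rw [ha.2]; norm_num)
    have q2 : b = i ∨ b = j := by
      by_contra hc
      push Not at hc
      exact e2 hc.1 hc.2 (by rw [hb.2]; norm_num)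
    have q3 : a' = i ∨ a' = j := by
      by_contra hc
      push Not at hc
      exact e3 hc.1 hc.2 (by rw [ha'.2]; norm_num)
    rcases q1 with q1 | q1 <;> rcases q2 with q2 | q2 <;> rcases q3 with q3 | q3
    · exact hab (q1.trans q2.symm)
    · exact hab (q1.trans q2.symm)
    · exact haa' (q1.trans q3.symm)
    · exact hba' (q2.trans q3.symm)
    · exact hba' (q2.trans q3.symm)
    · exact haa' (q1.trans q3.symm)
    · exact hab (q1.trans q2.symm)
    · exact hab (q1.trans q2.symm)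
  obtain ⟨f, κ, hf, hz⟩ := h.func
      (fun l => (if l = j then 1 else 0) - (if l = p then c p * c j else 0)) 0 (by
      simp only [mul_sub, mul_ite, mul_one, mul_zero,
        Finset.sum_sub_distrib, Finset.sum_ite_eq', Finset.mem_univ, if_true]
      rw [← mul_assoc, hcp]
      ring)
  refine ⟨f, ?_⟩
  rw [hf, hf]
  simp only [if_true, if_neg hij, if_neg hpi.symm, if_neg hpj.symm]
  ring

end Pool.Agent.Lib.H84G
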