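import Pool.Agent.Lib.H84G.C1

/-!
# N2: the gap point lies in `2 k Q`
-/

set_option autoImplicit false

open Pointwise

namespace Pool.Agent.Lib.H84G

/-- The point `(2k+1; 0,..,0, 1,..,1, 0,..,0)`: `u_0 = 2k+1`, `u_l = 1` for `k < l ≤ 2k`. -/
def uu (N k : ℕ) (l : Fin (N + 1)) : ℤ :=
  if (l : ℕ) = 0 then 2 * k + 1 else if (l : ℕ) ≤ k then 0 else if (l : ℕ) ≤ 2 * k then 1 else 0

theorem n2_sum (N k : ℕ) (h : 2 * k ≤ N) :
    ∑ l ∈ Finset.univ.erase (0 : Fin (N + 1)), uu N k l = k := by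
  have h1 : ∑ l ∈ Finset.univ.erase (0 : Fin (N + 1)), uu N k l =
      ∑ l : Fin (N + 1), (if k < (l : ℕ) ∧ (l : ℕ) ≤ 2 * k then (1 : ℤ) else 0) := by
    rw [← Finset.add_sum_erase Finset.univ _ (Finset.mem_univ (0 : Fin (N + 1)))]
    rw [if_neg (by simp), zero_add]
    refine Finset.sum_congr rfl fun l hl => ?_
    have hl0 : (l : ℕ) ≠ 0 := fun h0 => Finset.ne_of_mem_erase hl (Fin.ext h0)
    unfold uu
    rw [if_neg hl0]
    by_cases h2 : (l : ℕ) ≤ k
    · rw [if_pos h2, if_neg (by omega)]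
    · rw [if_neg h2]
      by_cases h3 : (l : ℕ) ≤ 2 * k
      · rw [if_pos h3, if_pos (by omega)]
      · rw [if_neg h3, if_neg (by omega)]
  rw [h1, Fin.sum_univ_eq_sum_range (fun i => if k < i ∧ i ≤ 2 * k then (1 : ℤ) else 0) (N + 1),
    Finset.sum_boole]
  have h2 : (Finset.range (N + 1)).filter (fun i => k < i ∧ i ≤ 2 * k) = Finset.Ioc k (2 * k) := by
    ext i
    simp only [Finset.mem_filter, Finset.mem_range, Finset.mem_Ioc]
    omega
  rw [h2, Nat.card_Ioc]
  congr 1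
  omega

/-- the coefficients -/
noncomputable def n2_x (N k : ℕ) : Option (Fin (N + 1)) → ℝ
  | none => k - 1 / (2 * k + 2)
  | some l => if l = 0 then 1 / (2 * k + 2) else uu N k l - 1 / (2 * k + 2) * av N k l

theorem n2_nonneg (N k : ℕ) (hk : 1 ≤ k) (j : Option (Fin (N + 1))) : 0 ≤ n2_x N k j := by
  have hk' : (1 : ℝ) ≤ k := by exact_mod_cast hk
  have hw0 : (0 : ℝ) < 1 / (2 * k + 2) := by positivity
  have hw1 : (1 : ℝ) / (2 * k + 2) ≤ 1 := by
    rw [div_le_one (by positivity)]; linarith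
  rcases j with _ | l
  · unfold n2_x
    simp only
    linarith
  · unfold n2_x
    simp only
    by_cases hl : l = 0
    · rw [if_pos hl]; exact hw0.le
    · rw [if_neg hl]
      have hl0 : (l : ℕ) ≠ 0 := fun h0 => hl (Fin.ext h0)
      unfold uu av
      rw [if_neg hl0, if_neg hl0]
      by_cases h2 : (l : ℕ) ≤ k
      · rw [if_pos h2, if_pos h2]; push_cast; linarith
      · rw [if_neg h2, if_neg h2]
        by_cases h3 : (l : ℕ) ≤ 2 * k
        · rw [if_pos h3]; push_cast; linarith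
        · rw [if_neg h3]; push_cast; linarith

theorem n2_sum_x (N k : ℕ) (h : 2 * k ≤ N) : ∑ j, n2_x N k j = 2 * k := by
  rw [Fintype.sum_option, ← Finset.add_sum_erase Finset.univ _ (Finset.mem_univ (0 : Fin (N + 1)))]
  have e : ∀ l ∈ Finset.univ.erase (0 : Fin (N + 1)), n2_x N k (some l) =
      (uu N k l : ℝ) - 1 / (2 * k + 2) * (av N k l : ℝ) := by
    intro l hl
    exact if_neg (Finset.ne_of_mem_erase hl)
  rw [Finset.sum_congr rfl e, Finset.sum_sub_distrib, ← Finset.mul_sum]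
  have h1 : ∑ l ∈ Finset.univ.erase (0 : Fin (N + 1)), (uu N k l : ℝ) = k := by
    exact_mod_cast n2_sum N k h
  have h2 : ∑ l ∈ Finset.univ.erase (0 : Fin (N + 1)), (av N k l : ℝ) = 0 := by
    exact_mod_cast c1_sum_av N k h
  rw [h1, h2]
  have h3 : n2_x N k none = (k : ℝ) - 1 / (2 * k + 2) := rfl
  have h4 : n2_x N k (some 0) = 1 / (2 * k + 2) := by simp [n2_x]
  rw [h3, h4]
  ring

theorem n2_sum_t (N k : ℕ) (l : Fin (N + 1)) :
    ∑ j, n2_x N k j * (tt N k j l : ℝ) =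
      1 / (2 * k + 2) * (av N k l : ℝ) + (if l = 0 then 0 else n2_x N k (some l)) := by
  rw [Fintype.sum_option, ← Finset.add_sum_erase Finset.univ _ (Finset.mem_univ (0 : Fin (N + 1))),
    tt_none, tt_zero]
  have h4 : n2_x N k (some 0) = 1 / (2 * k + 2) := by simp [n2_x]
  rw [h4]
  have h5 : n2_x N k none * (((0 : Fin (N + 1) → ℤ) l : ℤ) : ℝ) = 0 := by simp
  rw [h5, zero_add]
  congr 1
  have e : ∀ l' ∈ Finset.univ.erase (0 : Fin (N + 1)),
      n2_x N k (some l') * (tt N k (some l') l : ℝ) = if l = l' then n2_x N k (some l') else 0 := by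
    intro l' hl'
    rw [tt_some N k l' (Finset.ne_of_mem_erase hl'), Pi.single_apply]
    split_ifs <;> simp
  rw [Finset.sum_congr rfl e, Finset.sum_ite_eq]
  by_cases hl : l = 0
  · rw [if_pos hl, if_neg]
    rw [hl]
    exact Finset.notMem_erase _ _
  · rw [if_neg hl, if_pos (Finset.mem_erase.2 ⟨hl, Finset.mem_univ _⟩)]

/-- `uu = ∑ x_j (t_j + z)` with `s = 2k+2`, `w = 1/s`, `x_{some 0} = w`,
`x_{some l} = uu_l - w av_l` for `l ≠ 0` (that is `w` for `l ≤ k`, `1 - w` for `k < l ≤ 2k`, else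
`0`), `x_none = k - w`; all `x_j ≥ 0`, and `∑ x_j = 2k` (`c1_sum_av`, `∑_{l ≠ 0} uu_l = k`).
Coordinate `l ≠ 0`: `x_{some l} + w av_l = uu_l`; coordinate `0`: `w s + ∑ x_j = 1 + 2k`.
So `uu = 2 • ∑ (x_j / (2k)) • (k (t_j + z))`, twice a convex combination of points
`k (t_j + z)` of `P = poly (vset ..)`. -/
theorem n1_mem (N k : ℕ) (hk : 1 ≤ k) (h : 2 * k ≤ N) :
    toReal (uu N k) ∈ (2 : ℝ) • poly (vset k (tt N k) (zz N)) := by
  have hk' : (0 : ℝ) < k := by exact_mod_cast hk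
  refine Set.mem_smul_set.2 ⟨∑ j, (n2_x N k j / (2 * k)) • toReal (k • (tt N k j + zz N)), ?_, ?_⟩
  · refine Convex.sum_mem (convex_convexHull ℝ _)
      (fun j _ => div_nonneg (n2_nonneg N k hk j) (by positivity)) ?_ (fun j _ => ?_)
    · rw [← Finset.sum_div, n2_sum_x N k h]
      exact div_self (by positivity)
    · exact mem_poly_of_mem (mem_vset.2 ⟨j, Or.inr rfl⟩)
  · funext l
    have e1 : ∀ j, (n2_x N k j / (2 * k)) • toReal (k • (tt N k j + zz N)) l =
        (1 / 2) * (n2_x N k j * (tt N k j l : ℝ) + n2_x N k j * (zz N l : ℝ)) := by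
      intro j
      simp only [toReal, Pi.smul_apply, Pi.add_apply, smul_eq_mul, nsmul_eq_mul, Int.cast_mul,
        Int.cast_natCast, Int.cast_add]
      field_simp
    simp only [Pi.smul_apply, Finset.sum_apply, smul_eq_mul] at e1 ⊢
    rw [Finset.sum_congr rfl fun j _ => e1 j, ← Finset.mul_sum, Finset.sum_add_distrib,
      ← Finset.sum_mul, n2_sum_x N k h, n2_sum_t]
    unfold toReal
    by_cases hl : l = 0
    · rw [if_pos hl, hl]
      have h1 : zz N 0 = 1 := by simp [zz]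
      have h2 : av N k 0 = 2 * k + 2 := by simp [av]
      have h3 : uu N k 0 = 2 * k + 1 := by simp [uu]
      rw [h1, h2, h3]
      push_cast
      field_simp
      ring
    · rw [if_neg hl]
      have h1 : zz N l = 0 := by simp [zz, hl]
      have h2 : n2_x N k (some l) = (uu N k l : ℝ) - 1 / (2 * k + 2) * (av N k l : ℝ) := if_neg hl
      rw [h1, h2]
      push_cast
      ring

end Pool.Agent.Lib.H84G
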