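import Pool.Agent.Lib.H84G.N1
import Pool.Agent.Lib.H84G.N2

/-!
# N3: `k Q` is not integrally closed
-/

set_option autoImplicit false

open Pointwise

namespace Pool.Agent.Lib.H84G

theorem n3_aux (N k : ℕ) (hk : 1 ≤ k) (h : 2 * k ≤ N) (p q : Fin (N + 1) → ℤ) (w w' : ℝ)
    (hw : 0 ≤ w) (hw' : 0 < w') (hlt : w + w' < 1)
    (hp : ∀ l, l ≠ 0 → w * (av N k l : ℝ) ≤ p l) (hq : ∀ l, l ≠ 0 → w' * (av N k l : ℝ) ≤ q l)
    (hqs : w' + ∑ l ∈ Finset.univ.erase (0 : Fin (N + 1)), (q l : ℝ) ≤ k)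
    (hpq : p + q = uu N k) : False := by
  have hs : ∀ l, p l + q l = uu N k l := fun l => congrFun hpq l
  have hw0 : w = 0 := by
    have hlt' : k + 1 < N + 1 := by omega
    have hne : (⟨k + 1, hlt'⟩ : Fin (N + 1)) ≠ 0 := by
      intro h0
      have := congrArg Fin.val h0
      simp at this
    have h1 := hp _ hne
    have h2 := hq _ hne
    have h3 := hs ⟨k + 1, hlt'⟩
    have hav : av N k ⟨k + 1, hlt'⟩ = 1 := by
      unfold av
      simp only
      rw [if_neg (by omega), if_neg (by omega), if_pos (by omega)]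
    have huu : uu N k ⟨k + 1, hlt'⟩ = 1 := by
      unfold uu
      simp only
      rw [if_neg (by omega), if_neg (by omega), if_pos (by omega)]
    rw [hav] at h1 h2
    rw [huu] at h3
    push_cast at h1 h2
    rw [mul_one] at h1 h2
    have h4 : (0 : ℝ) < (q ⟨k + 1, hlt'⟩ : ℝ) := lt_of_lt_of_le hw' h2
    have h5 : 0 < q ⟨k + 1, hlt'⟩ := by exact_mod_cast h4
    have h6 : p ⟨k + 1, hlt'⟩ ≤ 0 := by omega
    have h7 : (p ⟨k + 1, hlt'⟩ : ℝ) ≤ 0 := by exact_mod_cast h6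
    linarith
  have hqu : ∀ l, l ≠ 0 → q l = uu N k l := by
    intro l hl
    have hl0 : (l : ℕ) ≠ 0 := fun h0 => hl (Fin.ext h0)
    have h1 := hp l hl
    have h2 := hq l hl
    have h3 := hs l
    rw [hw0, zero_mul] at h1
    have h1' : 0 ≤ p l := by exact_mod_cast h1
    unfold av at h2
    unfold uu at h3 ⊢
    rw [if_neg hl0] at h2 h3 ⊢
    by_cases c1 : (l : ℕ) ≤ k
    · rw [if_pos c1] at h2 h3 ⊢
      push_cast at h2
      have h4 : (-1 : ℝ) < (q l : ℝ) := by linarith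
      have h5 : -1 < q l := by exact_mod_cast h4
      omega
    · rw [if_neg c1] at h2 h3 ⊢
      by_cases c2 : (l : ℕ) ≤ 2 * k
      · rw [if_pos c2] at h2 h3 ⊢
        push_cast at h2
        have h4 : (0 : ℝ) < (q l : ℝ) := by linarith
        have h5 : 0 < q l := by exact_mod_cast h4
        omega
      · rw [if_neg c2] at h2 h3 ⊢
        push_cast at h2
        rw [mul_zero] at h2
        have h5 : 0 ≤ q l := by exact_mod_cast h2
        omega
  have h1 : ∑ l ∈ Finset.univ.erase (0 : Fin (N + 1)), (q l : ℝ) = k := by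
    have h2 : ∑ l ∈ Finset.univ.erase (0 : Fin (N + 1)), q l = k := by
      rw [Finset.sum_congr rfl fun l hl => hqu l (Finset.ne_of_mem_erase hl)]
      exact n2_sum N k h
    exact_mod_cast h2
  linarith

/-- Suppose `uu = p + q` with lattice points `p, q ∈ k Q`; let `w, w'` be the numbers of
`n1_of_mem`. `2k+1 = p_0 + q_0 ≤ s (w + w') + 2k` gives `w + w' > 0`, and
`s (w + w') ≤ 2k+1 < s` gives `w + w' < 1`. By symmetry `w' > 0`. For `k < j ≤ 2k`:
`q_j ≥ w' > 0`, so `q_j ≥ 1` and `p_j ≤ 0`; as `p_j ≥ w`, `w = 0` (take `j = k+1`), `p_j = 0` and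
`q_j = 1`. For `1 ≤ i ≤ k`: `p_i ≥ 0` and `q_i ≥ -w' > -1`, so `q_i ≥ 0`, and the sum is `0`: both
are `0`. For `l > 2k`: both are `0`. So `∑_{l ≠ 0} q_l = k` and `w' ≤ k - k = 0`,
contradiction. -/
theorem n1_not (N k : ℕ) (hk : 1 ≤ k) (h : 2 * k ≤ N) (p q : Fin (N + 1) → ℤ)
    (hp : toReal p ∈ poly (vset k (tt N k) (zz N))) (hq : toReal q ∈ poly (vset k (tt N k) (zz N)))
    (hpq : p + q = uu N k) : False := by
  obtain ⟨w, a1, a2, a3, a4, a5⟩ := n1_of_mem N k h _ hp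
  obtain ⟨w', b1, b2, b3, b4, b5⟩ := n1_of_mem N k h _ hq
  have h0 : (p 0 : ℝ) + (q 0 : ℝ) = 2 * k + 1 := by
    have h1 := congrFun hpq 0
    have h2 : uu N k 0 = 2 * k + 1 := by simp [uu]
    rw [h2, Pi.add_apply] at h1
    exact_mod_cast h1
  simp only [toReal] at a2 a3 a4 a5 b2 b3 b4 b5
  have hk0 : (0 : ℝ) ≤ k := Nat.cast_nonneg k
  have hlt : w + w' < 1 := by
    by_contra hge
    rw [not_lt] at hge
    nlinarith
  have hpos : 0 < w + w' := by
    by_contra hle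
    rw [not_lt] at hle
    nlinarith
  by_cases hw' : 0 < w'
  · exact n3_aux N k hk h p q w w' a1 hw' hlt a2 b2 b3 hpq
  · have hw : 0 < w := by
      rw [not_lt] at hw'
      linarith
    exact n3_aux N k hk h q p w' w b1 hw (by linarith) b2 a2 a3 ((add_comm q p).trans hpq)

/-- `r = 1`. -/
theorem n1_main (N k : ℕ) (hk : 1 ≤ k) (h : 2 * k ≤ N) :
    ¬ IsIntegrallyClosed (poly (vset k (tt N k) (zz N))) := by
  intro hcl
  have h1 := hcl 1 le_rfl
  have h2 : uu N k ∈ latticePoints (((1 + 1 : ℕ) : ℝ) • poly (vset k (tt N k) (zz N))) := by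
    have := n1_mem N k hk h
    have e : ((1 + 1 : ℕ) : ℝ) = 2 := by norm_num
    rw [e]
    exact this
  rw [← h1, Nat.cast_one, one_smul] at h2
  obtain ⟨p, hp, q, hq, hpq⟩ := Set.mem_add.1 h2
  exact n1_not N k hk h p q hp hq hpq

end Pool.Agent.Lib.H84G
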