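import Pool.Agent.Lib.H84G.Sys

/-!
# P3: `k Q` is full-dimensional
-/

set_option autoImplicit false

namespace Pool.Agent.Lib.H84G

variable {n : ℕ} {J : Type} [Fintype J] [DecidableEq J]

/-- The direction `V` of the affine span contains `k z` and `k (t_j - t_i)`, hence `z` and
`t_j - t_i`, hence (by `h.gen`, as `∑ x = 0`) all `toReal u`, in particular the unit vectors;
so `V = ⊤`. -/
theorem p3_span {t : J → Fin n → ℤ} {z : Fin n → ℤ} {c : J → ℤ} {s : ℤ} (h : Sys t z c s)
    (k : ℕ) (hk : 1 ≤ k) : affineSpan ℝ (poly (vset k t z)) = ⊤ := by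
  classical
  have hk0 : (k : ℝ) ≠ 0 := by
    have : (0 : ℝ) < (k : ℝ) := by exact_mod_cast hk
    exact ne_of_gt this
  obtain ⟨j0, -⟩ : ∃ j0 : J, j0 ∈ (Finset.univ.filter fun j => c j = 1) := by
    have h2 := h.pos
    exact Finset.card_pos.mp (by omega)
  unfold poly
  rw [affineSpan_convexHull]
  have hmem : ∀ v ∈ vset k t z,
      toReal v ∈ affineSpan ℝ (toReal '' ((vset k t z : Finset (Fin n → ℤ)) : Set (Fin n → ℤ))) :=
    fun v hv => subset_affineSpan ℝ _ ⟨v, hv, rfl⟩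
  have hne : (affineSpan ℝ (toReal '' ((vset k t z : Finset (Fin n → ℤ)) : Set (Fin n → ℤ))) :
      Set (Fin n → ℝ)).Nonempty :=
    ⟨toReal (k • t j0), hmem _ (mem_vset.mpr ⟨j0, Or.inl rfl⟩)⟩
  rw [← AffineSubspace.direction_eq_top_iff_of_nonempty hne]
  set V := (affineSpan ℝ (toReal '' ((vset k t z : Finset (Fin n → ℤ)) : Set (Fin n → ℤ)))).direction
    with hV
  have hk1 : ∀ w : Fin n → ℝ, (k : ℝ) • w ∈ V → w ∈ V := by
    intro w hw
    have := V.smul_mem ((k : ℝ)⁻¹) hw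
    rwa [smul_smul, inv_mul_cancel₀ hk0, one_smul] at this
  have hz : toReal z ∈ V := by
    apply hk1
    have h1 := AffineSubspace.vsub_mem_direction
      (hmem _ (mem_vset.mpr ⟨j0, Or.inr rfl⟩)) (hmem _ (mem_vset.mpr ⟨j0, Or.inl rfl⟩))
    have h2 : toReal (k • (t j0 + z)) -ᵥ toReal (k • t j0) = (k : ℝ) • toReal z := by
      rw [vsub_eq_sub, toReal_nsmul, toReal_nsmul, toReal_add, smul_add]
      abel
    rwa [h2] at h1
  have ht : ∀ j, toReal (t j) - toReal (t j0) ∈ V := by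
    intro j
    apply hk1
    have h1 := AffineSubspace.vsub_mem_direction
      (hmem _ (mem_vset.mpr ⟨j, Or.inl rfl⟩)) (hmem _ (mem_vset.mpr ⟨j0, Or.inl rfl⟩))
    have h2 : toReal (k • t j) -ᵥ toReal (k • t j0) = (k : ℝ) • (toReal (t j) - toReal (t j0)) := by
      rw [vsub_eq_sub, toReal_nsmul, toReal_nsmul, smul_sub]
    rwa [h2] at h1
  have hu : ∀ u : Fin n → ℤ, toReal u ∈ V := by
    intro u
    obtain ⟨x, y, hx, rfl⟩ := h.gen u
    have h1 : toReal (∑ j, x j • t j + y • z)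
        = ∑ j, (x j : ℝ) • (toReal (t j) - toReal (t j0)) + (y : ℝ) • toReal z := by
      rw [toReal_add, toReal_sum, toReal_zsmul]
      congr 1
      have h2 : ∑ j, (x j : ℝ) • toReal (t j0) = 0 := by
        rw [← Finset.sum_smul]
        have h3 : ∑ j, (x j : ℝ) = 0 := by exact_mod_cast hx
        rw [h3, zero_smul]
      calc ∑ j, toReal (x j • t j) = ∑ j, (x j : ℝ) • toReal (t j) :=
            Finset.sum_congr rfl (fun j _ => toReal_zsmul _ _)
        _ = ∑ j, (x j : ℝ) • toReal (t j) - ∑ j, (x j : ℝ) • toReal (t j0) := by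
            rw [h2, sub_zero]
        _ = ∑ j, (x j : ℝ) • (toReal (t j) - toReal (t j0)) := by
            rw [← Finset.sum_sub_distrib]
            exact Finset.sum_congr rfl (fun j _ => by rw [smul_sub])
    rw [h1]
    exact V.add_mem (V.sum_mem (fun j _ => V.smul_mem _ (ht j))) (V.smul_mem _ hz)
  rw [eq_top_iff]
  intro v _
  have hv : v = ∑ i, v i • toReal (Pi.single i (1 : ℤ) : Fin n → ℤ) := by
    funext l
    rw [Finset.sum_apply]
    rw [Finset.sum_eq_single l]
    · simp [toReal]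
    · intro i _ hi
      simp [toReal, Pi.single_apply, hi.symm]
    · intro hl
      exact absurd (Finset.mem_univ l) hl
  rw [hv]
  exact V.sum_mem (fun i _ => V.smul_mem _ (hu _))

theorem p3_lattice {t : J → Fin n → ℤ} {z : Fin n → ℤ} {c : J → ℤ} {s : ℤ} (h : Sys t z c s)
    (k : ℕ) (hk : 1 ≤ k) : IsLatticePolytope (poly (vset k t z)) :=
  ⟨⟨vset k t z, rfl⟩, p3_span h k hk⟩

end Pool.Agent.Lib.H84G
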