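import Pool.Agent.Lib.H84G.P2

/-!
# P4: `L(P) = k` for `P = k Q`
-/

set_option autoImplicit false

namespace Pool.Agent.Lib.H84G

variable {n : ℕ} {J : Type} [Fintype J] [DecidableEq J]

/-- If `dotZ f z = 1`, the lattice points of the segment from `k u` to `k (u + z)` are exactly
the `k u + m z`, `m = 0, .., k`: for `x = k u + θ z` the number `θ = dotR f x - k dotZ f u` is
an integer. -/
theorem p2_upper (k : ℕ) (u z f : Fin n → ℤ) (hf : dotZ f z = 1) :
    (latticePoints (segment ℝ (toReal (k • u)) (toReal (k • (u + z))))).ncard - 1 ≤ k := by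
  have hsub : latticePoints (segment ℝ (toReal (k • u)) (toReal (k • (u + z)))) ⊆
      ((Finset.range (k + 1)).image (fun m : ℕ => k • u + m • z) : Set (Fin n → ℤ)) := by
    rintro x ⟨a, b, ha, hb, hab, hx⟩
    have h1 : dotR f (toReal x) = a * ((k : ℝ) * (dotZ f u : ℝ))
        + b * ((k : ℝ) * ((dotZ f u : ℝ) + 1)) := by
      rw [← hx, dotR_add, dotR_smul, dotR_smul, dotR_toReal, dotR_toReal, dotZ_nsmul, dotZ_nsmul,
        dotZ_add, hf]
      push_cast
      ring
    have h2 : b * (k : ℝ) = ((dotZ f x - (k : ℤ) * dotZ f u : ℤ) : ℝ) := by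
      rw [dotR_toReal] at h1
      push_cast
      rw [h1]
      have : a = 1 - b := by linarith
      rw [this]
      ring
    have h3 : (0 : ℤ) ≤ dotZ f x - (k : ℤ) * dotZ f u := by
      have : (0 : ℝ) ≤ ((dotZ f x - (k : ℤ) * dotZ f u : ℤ) : ℝ) := by
        rw [← h2]; positivity
      exact_mod_cast this
    have h4 : dotZ f x - (k : ℤ) * dotZ f u ≤ (k : ℤ) := by
      have : ((dotZ f x - (k : ℤ) * dotZ f u : ℤ) : ℝ) ≤ ((k : ℤ) : ℝ) := by
        rw [← h2]
        have hb1 : b ≤ 1 := by linarith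
        have hk : (0 : ℝ) ≤ (k : ℝ) := Nat.cast_nonneg k
        push_cast
        nlinarith
      exact_mod_cast this
    obtain ⟨m, hm⟩ := Int.eq_ofNat_of_zero_le h3
    rw [Finset.coe_image]
    refine ⟨m, ?_, ?_⟩
    · rw [Finset.mem_coe, Finset.mem_range]
      rw [hm] at h4
      have : m ≤ k := by exact_mod_cast h4
      omega
    · funext j
      have hb' : b * (k : ℝ) = (m : ℝ) := by
        rw [h2, hm]
        norm_cast
      have hxj := congrFun hx j
      simp only [toReal, Pi.add_apply, Pi.smul_apply] at hxj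
      simp only [smul_eq_mul, nsmul_eq_mul] at hxj
      push_cast at hxj
      have : ((k • u + m • z) j : ℝ) = (x j : ℝ) := by
        simp only [Pi.add_apply, Pi.smul_apply]
        simp only [nsmul_eq_mul]
        push_cast
        rw [← hxj, ← hb']
        have ha' : a = 1 - b := by linarith
        rw [ha']
        ring
      exact_mod_cast this
  have h1 := Set.ncard_le_ncard hsub (Finset.finite_toSet _)
  rw [Set.ncard_coe_finset] at h1
  have h2 := Finset.card_image_le (s := Finset.range (k + 1)) (f := fun m : ℕ => k • u + m • z)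
  rw [Finset.card_range] at h2
  omega

/-- Lower bound: for an edge `u v`, both are in `vset` (`isVertex_mem`), so `u = k u'`,
`v = k v'`; `p2_lower`. Upper bound: the edge `e1_vert` and `p2_upper` with `f1_pos`. -/
theorem p2_length {t : J → Fin n → ℤ} {z : Fin n → ℤ} {c : J → ℤ} {s : ℤ} (h : Sys t z c s)
    (k : ℕ) (hk : 1 ≤ k) : latticeLength (poly (vset k t z)) = k := by
  have hlow : ∀ u v : Fin n → ℤ, IsEdge (poly (vset k t z)) u v →
      k ≤ (latticePoints (segment ℝ (toReal u) (toReal v))).ncard - 1 := by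
    rintro u v ⟨hne, hu, hv, -⟩
    have hu' : ∃ u', u = k • u' := by
      obtain ⟨j, h1 | h1⟩ := mem_vset.mp (isVertex_mem hu)
      · exact ⟨_, h1⟩
      · exact ⟨_, h1⟩
    have hv' : ∃ v', v = k • v' := by
      obtain ⟨j, h1 | h1⟩ := mem_vset.mp (isVertex_mem hv)
      · exact ⟨_, h1⟩
      · exact ⟨_, h1⟩
    obtain ⟨u', rfl⟩ := hu'
    obtain ⟨v', rfl⟩ := hv'
    refine p2_lower k hk ?_
    rintro rfl
    exact hne rfl
  obtain ⟨i⟩ : Nonempty J := by
    have h1 := h.pos
    have h2 : 0 < (Finset.univ.filter fun j => c j = 1).card := by omega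
    obtain ⟨i, -⟩ := Finset.card_pos.mp h2
    exact ⟨i⟩
  obtain ⟨f, hf, -⟩ := f1_pos h i
  have hmem : k ∈ {k' | ∃ u v, IsEdge (poly (vset k t z)) u v ∧
      k' = (latticePoints (segment ℝ (toReal u) (toReal v))).ncard - 1} :=
    ⟨_, _, e1_vert h k hk i, le_antisymm (hlow _ _ (e1_vert h k hk i)) (p2_upper k (t i) z f hf)⟩
  unfold latticeLength
  refine le_antisymm (Nat.sInf_le hmem) ?_
  refine le_csInf ⟨k, hmem⟩ ?_
  rintro b ⟨u, v, he, rfl⟩
  exact hlow u v he

end Pool.Agent.Lib.H84G
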