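import Pool.Agent.Lib.H84G.P1
import Pool.Agent.Lib.H84G.P4
import Pool.Agent.Lib.H84G.P3
import Pool.Agent.Lib.H84G.C3
import Pool.Agent.Lib.H84G.N3

/-!
# The family of counterexamples
-/

set_option autoImplicit false

namespace Pool.Agent.Lib.H84G

/-- For all `n ≥ 3` and `1 ≤ k ≤ (n - 1) / 2` there is an `n`-dimensional lattice polytope with
`Γ_P = 0` and `L(P) = k` that is not integrally closed. -/
theorem family (n k : ℕ) (hk : 1 ≤ k) (h : 2 * k + 1 ≤ n) :
    ∃ P : Set (Fin n → ℝ), IsLatticePolytope P ∧ Gamma P = 0 ∧ latticeLength P = k ∧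
      ¬ IsIntegrallyClosed P := by
  obtain ⟨N, rfl⟩ : ∃ N, n = N + 1 := ⟨n - 1, by omega⟩
  have hN : 2 * k ≤ N := by omega
  have hs := c2_sys N k hk hN
  exact ⟨poly (vset k (tt N k) (zz N)), p3_lattice hs k hk, p1_gamma hs k hk,
    p2_length hs k hk, n1_main N k hk hN⟩

end Pool.Agent.Lib.H84G
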