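import Pool.Agent.Lib.H84G.Sys

/-!
# G1: one relation, integral optimum
-/

set_option autoImplicit false

namespace Pool.Agent.Lib.H84G

variable {n : ℕ} {J : Type} [Fintype J] [DecidableEq J]

/-- Let `u = ∑ b_j w_j` with integers `b` (`hgen`) and `u = ∑ a_j w_j` with reals `a ≥ 0`. By
`hker`, `a = b + τ ρ` for a real `τ`. Let `T` be the minimum of `b_j` over the `j` with
`ρ_j = -1`, attained at `j₀`, and `lam = b + T ρ` (integers, still `u = ∑ lam_j w_j` by `hrel`).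
For `ρ_j = -1`: `lam_j = b_j - T ≥ 0`. Since `a_{j₀} = T - τ ≥ 0`, `τ ≤ T`, so for `ρ_j ≥ 0`:
`lam_j = b_j + T ρ_j ≥ b_j + τ ρ_j = a_j ≥ 0`. Finally `∑ a = ∑ b + τ ∑ ρ ≤ ∑ b + T ∑ ρ
= ∑ lam`. -/
theorem g1_dec (w : J → Fin n → ℤ) (ρ : J → ℤ) (hrel : ∑ j, ρ j • w j = 0)
    (hker : ∀ a : J → ℝ, ∑ j, a j • toReal (w j) = 0 → ∃ τ : ℝ, ∀ j, a j = τ * (ρ j : ℝ))
    (hgen : ∀ u : Fin n → ℤ, ∃ b : J → ℤ, u = ∑ j, b j • w j)
    (hsign : ∀ j, 0 ≤ ρ j ∨ ρ j = -1) (hneg : ∃ j, ρ j = -1) (htot : 0 ≤ ∑ j, ρ j)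
    (a : J → ℝ) (ha : ∀ j, 0 ≤ a j) (u : Fin n → ℤ) (hu : toReal u = ∑ j, a j • toReal (w j)) :
    ∃ lam : J → ℕ, u = ∑ j, lam j • w j ∧ ∑ j, a j ≤ ∑ j, (lam j : ℝ) := by
  obtain ⟨b, hb⟩ := hgen u
  have hbr : toReal u = ∑ j, (b j : ℝ) • toReal (w j) := by
    rw [hb, toReal_sum]
    exact Finset.sum_congr rfl fun j _ => toReal_zsmul _ _
  obtain ⟨τ, hτ⟩ := hker (fun j => a j - b j) (by
    simp only [sub_smul, Finset.sum_sub_distrib]
    rw [← hu, ← hbr, sub_self])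
  obtain ⟨j1, hj1⟩ := hneg
  obtain ⟨j0, hj0, hmin⟩ := Finset.exists_min_image (Finset.univ.filter fun j => ρ j = -1) b
    ⟨j1, Finset.mem_filter.2 ⟨Finset.mem_univ _, hj1⟩⟩
  have hρ0 : ρ j0 = -1 := (Finset.mem_filter.1 hj0).2
  set T := b j0 with hT
  have hτT : τ ≤ (T : ℝ) := by
    have h1 := hτ j0
    have h2 := ha j0
    rw [hρ0] at h1
    push_cast at h1
    linarith
  have hlam : ∀ j, 0 ≤ b j + T * ρ j := by
    intro j
    rcases hsign j with h | h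
    · have h1 := hτ j
      have h2 := ha j
      have h3 : τ * (ρ j : ℝ) ≤ (T : ℝ) * (ρ j : ℝ) :=
        mul_le_mul_of_nonneg_right hτT (by exact_mod_cast h)
      have h4 : (0 : ℝ) ≤ (b j : ℝ) + (T : ℝ) * (ρ j : ℝ) := by
        linarith
      exact_mod_cast h4
    · have := hmin j (Finset.mem_filter.2 ⟨Finset.mem_univ _, h⟩)
      rw [h]
      omega
  refine ⟨fun j => (b j + T * ρ j).toNat, ?_, ?_⟩
  · have e : ∀ j, ((b j + T * ρ j).toNat) • w j = b j • w j + T • (ρ j • w j) := by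
      intro j
      rw [← natCast_zsmul, Int.toNat_of_nonneg (hlam j), add_smul, mul_smul]
    simp only [e]
    rw [Finset.sum_add_distrib, ← Finset.smul_sum, hrel, smul_zero, add_zero, ← hb]
  · have e : ∀ j, (((b j + T * ρ j).toNat : ℕ) : ℝ) = (b j : ℝ) + (T : ℝ) * (ρ j : ℝ) := by
      intro j
      have : (((b j + T * ρ j).toNat : ℕ) : ℤ) = b j + T * ρ j := Int.toNat_of_nonneg (hlam j)
      have h2 : ((((b j + T * ρ j).toNat : ℕ) : ℤ) : ℝ) = ((b j + T * ρ j : ℤ) : ℝ) := by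
        rw [this]
      push_cast at h2
      exact_mod_cast h2
    have e2 : ∀ j, a j = (b j : ℝ) + τ * (ρ j : ℝ) := by
      intro j
      have := hτ j
      linarith
    simp only [e, e2]
    rw [Finset.sum_add_distrib, Finset.sum_add_distrib, ← Finset.mul_sum, ← Finset.mul_sum]
    have h3 : (0 : ℝ) ≤ ∑ j, (ρ j : ℝ) := by exact_mod_cast htot
    have := mul_le_mul_of_nonneg_right hτT h3
    linarith

end Pool.Agent.Lib.H84G
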