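import Pool.Agent.Lib.H84G.K1

/-!
# G2: the one relation between the generators
-/

set_option autoImplicit false

namespace Pool.Agent.Lib.H84G

variable {n : ℕ} {J : Type} [Fintype J] [DecidableEq J]

/-- `∑ a_j g_j = ∑_{j ≠ i} a_j (t_j - t_i) + a_i z`: apply `h.kernel` to `x_j = a_j` (`j ≠ i`),
`x_i = - ∑_{j ≠ i} a_j` and `y = a_i`: `a_j = τ c_j` (`j ≠ i`), `a_i = -τ s`; take `-τ`. -/
theorem g2_ker {t : J → Fin n → ℤ} {z : Fin n → ℤ} {c : J → ℤ} {s : ℤ} (h : Sys t z c s) (i : J)
    (a : J → ℝ) (ha : ∑ j, a j • toReal (genVec t z i j) = 0) :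
    ∃ τ : ℝ, ∀ j, a j = τ * (rho c s i j : ℝ) := by
  have e : ∀ j, a j • toReal (genVec t z i j) =
      (a j • toReal (t j) - a j • toReal (t i)) + (if j = i then a i • toReal z else 0) := by
    intro j
    rw [k1_genVec]
    by_cases hj : j = i
    · rw [if_pos hj, if_pos hj, hj]
      simp
    · rw [if_neg hj, if_neg hj]
      simp [smul_sub]
  simp only [e] at ha
  rw [Finset.sum_add_distrib, Finset.sum_sub_distrib, ← Finset.sum_smul,
    Finset.sum_ite_eq' Finset.univ i (fun _ => a i • toReal z), if_pos (Finset.mem_univ i)] at ha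
  have e2 : ∀ j, (a j - (if j = i then ∑ l, a l else 0)) • toReal (t j) =
      a j • toReal (t j) - (if j = i then (∑ l, a l) • toReal (t i) else 0) := by
    intro j
    by_cases hj : j = i
    · rw [if_pos hj, if_pos hj, sub_smul, hj]
    · rw [if_neg hj, if_neg hj, sub_zero, sub_zero]
  obtain ⟨τ, h1, h2⟩ := h.kernel (fun j => a j - (if j = i then ∑ l, a l else 0)) (a i)
    (by
      rw [Finset.sum_sub_distrib, Finset.sum_ite_eq' Finset.univ i (fun _ => ∑ l, a l),
        if_pos (Finset.mem_univ i), sub_self])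
    (by
      simp only [e2]
      rw [Finset.sum_sub_distrib,
        Finset.sum_ite_eq' Finset.univ i (fun _ => (∑ l, a l) • toReal (t i)),
        if_pos (Finset.mem_univ i)]
      exact ha)
  refine ⟨-τ, fun j => ?_⟩
  unfold rho
  by_cases hj : j = i
  · rw [if_pos hj, hj, h2]
  · have h3 := h1 j
    simp only [if_neg hj, sub_zero] at h3
    rw [if_neg hj, h3]
    push_cast
    ring

/-- From `h.gen u = (x, y)`: `b_j = x_j` (`j ≠ i`), `b_i = y` (`x_i = -∑_{j ≠ i} x_j`). -/
theorem g2_gen {t : J → Fin n → ℤ} {z : Fin n → ℤ} {c : J → ℤ} {s : ℤ} (h : Sys t z c s) (i : J)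
    (u : Fin n → ℤ) : ∃ b : J → ℤ, u = ∑ j, b j • genVec t z i j := by
  obtain ⟨x, y, hx, hu⟩ := h.gen u
  refine ⟨fun j => if j = i then y else x j, ?_⟩
  have e : ∀ j, (if j = i then y else x j) • genVec t z i j =
      (x j • t j - x j • t i) + (if j = i then y • z else 0) := by
    intro j
    rw [k1_genVec]
    by_cases hj : j = i
    · rw [if_pos hj, if_pos hj, if_pos hj, hj]
      simp
    · rw [if_neg hj, if_neg hj, if_neg hj]
      simp [smul_sub]
  simp only [e]
  rw [Finset.sum_add_distrib, Finset.sum_sub_distrib, ← Finset.sum_smul, hx, zero_smul, sub_zero,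
    Finset.sum_ite_eq' Finset.univ i (fun _ => y • z), if_pos (Finset.mem_univ i), hu]

/-- `∑ ρ = s - ∑_{j ≠ i} c_j = s + c_i ≥ 0`; `ρ_j = -1` for a `j ≠ i` with `c_j = 1` (`pos`). -/
theorem g2_rho {t : J → Fin n → ℤ} {z : Fin n → ℤ} {c : J → ℤ} {s : ℤ} (h : Sys t z c s) (i : J) :
    (∀ j, 0 ≤ rho c s i j ∨ rho c s i j = -1) ∧ (∃ j, rho c s i j = -1) ∧
      0 ≤ ∑ j, rho c s i j := by
  have hs := h.two_le
  refine ⟨?_, ?_, ?_⟩
  · intro j
    unfold rho
    by_cases hj : j = i
    · rw [if_pos hj]; left; omega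
    · rw [if_neg hj]
      rcases h.c_val j with h1 | h1 | h1 <;> rw [h1] <;> omega
  · obtain ⟨j, hj, hji⟩ := Finset.exists_mem_ne (s := Finset.univ.filter fun j => c j = 1)
      (by have := h.pos; omega) i
    refine ⟨j, ?_⟩
    unfold rho
    rw [if_neg hji, (Finset.mem_filter.1 hj).2]
  · have e : ∀ j, rho c s i j = (if j = i then s + c i else 0) - c j := by
      intro j
      unfold rho
      by_cases hj : j = i
      · rw [if_pos hj, if_pos hj, hj]; ring
      · rw [if_neg hj, if_neg hj]; ring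
    simp only [e]
    rw [Finset.sum_sub_distrib, Finset.sum_ite_eq' Finset.univ i (fun _ => s + c i),
      if_pos (Finset.mem_univ i), h.sum_c]
    rcases h.c_val i with h1 | h1 | h1 <;> rw [h1] <;> omega
end Pool.Agent.Lib.H84G
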