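import Pool.Agent.Lib.H84G.F1

/-!
# G3: the generators are different and primitive
-/

set_option autoImplicit false

namespace Pool.Agent.Lib.H84G

variable {n : ℕ} {J : Type} [Fintype J] [DecidableEq J]

/-- Injectivity: for `j ≠ j'` both `≠ i` use `f1_prim`; for `z = t_j - t_i` use `f1_vert`. -/
theorem g2_inj {t : J → Fin n → ℤ} {z : Fin n → ℤ} {c : J → ℤ} {s : ℤ} (h : Sys t z c s) (i : J) :
    Function.Injective (genVec t z i) := by
  obtain ⟨f, hf0, hf⟩ := f1_vert h i
  have key : ∀ j, j ≠ i → z ≠ t j - t i := by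
    intro j hj he
    have h1 := hf j hj
    have h2 : dotZ f z = dotZ f (t j) - dotZ f (t i) := by rw [he, dotZ_sub]
    omega
  intro j j' hjj
  by_contra hne
  unfold genVec at hjj
  by_cases hj : j = i
  · have hj' : j' ≠ i := fun h' => hne (hj.trans h'.symm)
    rw [if_pos hj, if_neg hj'] at hjj
    exact key j' hj' hjj
  · by_cases hj' : j' = i
    · rw [if_neg hj, if_pos hj'] at hjj
      exact key j hj hjj.symm
    · rw [if_neg hj, if_neg hj'] at hjj
      have h1 : t j = t j' := sub_left_injective hjj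
      obtain ⟨f', hf'⟩ := f1_prim h j j' hne
      rw [h1] at hf'
      omega

/-- Some functional has value `1` on the vector (`f1_pos` for `z`, `f1_prim` for `t_j - t_i`),
and the gcd of the coordinates divides every value of an integer functional. -/
theorem g2_prim {t : J → Fin n → ℤ} {z : Fin n → ℤ} {c : J → ℤ} {s : ℤ} (h : Sys t z c s)
    (i j : J) : Finset.univ.gcd (genVec t z i j) = 1 := by
  have key : ∀ (f g : Fin n → ℤ), dotZ f g = 1 → Finset.univ.gcd g = 1 := by
    intro f g hfg
    have h1 : Finset.univ.gcd g ∣ (1 : ℤ) := by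
      rw [← hfg]
      unfold dotZ
      exact Finset.dvd_sum fun k _ => Dvd.dvd.mul_left (Finset.gcd_dvd (Finset.mem_univ k)) _
    have h2 : normalize (Finset.univ.gcd g) = Finset.univ.gcd g := Finset.normalize_gcd
    rw [← h2]
    exact normalize_eq_one.2 (isUnit_of_dvd_one h1)
  unfold genVec
  by_cases hj : j = i
  · rw [if_pos hj]
    obtain ⟨f, hf, -⟩ := f1_pos h i
    exact key f z hf
  · rw [if_neg hj]
    obtain ⟨f, hf⟩ := f1_prim h i j (Ne.symm hj)
    refine key f _ ?_
    rw [dotZ_sub]
    omega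
end Pool.Agent.Lib.H84G
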