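import Pool.Agent.Lib.H84G.G1
import Pool.Agent.Lib.H84G.G2
import Pool.Agent.Lib.H84G.G3

/-!
# G4: `Γ = 0` for the cones `coneOf (genVec t z i)`
-/

set_option autoImplicit false

namespace Pool.Agent.Lib.H84G

variable {n : ℕ} {J : Type} [Fintype J] [DecidableEq J]

/-- `gamma_zero` with `f1_pos` as the positive functional and `g1_dec`; then
`IsGreatest.csSup_eq`. -/
theorem g2_gamma {t : J → Fin n → ℤ} {z : Fin n → ℤ} {c : J → ℤ} {s : ℤ} (h : Sys t z c s)
    (i : J) : GammaCone (coneOf (genVec t z i)) = 0 := by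
  obtain ⟨f, hf1, hf2⟩ := f1_pos h i
  obtain ⟨r1, r2, r3⟩ := g2_rho h i
  refine (gamma_zero (g2_inj h i) (g2_prim h i) f ?_ ?_).csSup_eq
  · intro j
    unfold genVec
    by_cases hj : j = i
    · rw [if_pos hj, hf1]; norm_num
    · rw [if_neg hj, dotZ_sub]
      have := hf2 j hj
      omega
  · intro a ha u hu
    exact g1_dec (genVec t z i) (rho c s i) (k1_rel h i) (g2_ker h i) (g2_gen h i) r1 r2 r3 a ha u hu

end Pool.Agent.Lib.H84G
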