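import Pool.Agent.Lib.H84G.E1

/-!
# K1: the generators at `k t_i`
-/

set_option autoImplicit false

namespace Pool.Agent.Lib.H84G

variable {n : ℕ} {J : Type} [Fintype J] [DecidableEq J]

omit [Fintype J] in
theorem k1_genVec (t : J → Fin n → ℤ) (z : Fin n → ℤ) (i j : J) :
    genVec t z i j = (t j - t i) + if j = i then z else 0 := by
  unfold genVec
  by_cases h : j = i
  · rw [if_pos h, if_pos h, h, sub_self, zero_add]
  · rw [if_neg h, if_neg h, add_zero]

/-- `s = k t_j`: the difference is `k (t_j - t_i)` (`0` if `j = i`); `s = k (t_j + z)`: it is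
`k (t_j - t_i) + k z`. Use `mem_coneOf`, `coneOf_smul`, `coneOf_add`. -/
theorem k1_sub {t : J → Fin n → ℤ} {z : Fin n → ℤ} (k : ℕ) (i : J) :
    ∀ v ∈ vset k t z, toReal v - toReal (k • t i) ∈ coneOf (genVec t z i) := by
  intro v hv
  have hk : (0 : ℝ) ≤ (k : ℝ) := Nat.cast_nonneg k
  have hbase : ∀ j, (k : ℝ) • (toReal (t j) - toReal (t i)) ∈ coneOf (genVec t z i) := by
    intro j
    by_cases h : j = i
    · rw [h, sub_self, smul_zero]
      exact zero_mem_coneOf
    · have h1 := mem_coneOf (w := genVec t z i) j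
      have h2 : genVec t z i j = t j - t i := if_neg h
      rw [h2, toReal_sub] at h1
      exact coneOf_smul hk h1
  obtain ⟨j, rfl | rfl⟩ := mem_vset.1 hv
  · rw [toReal_nsmul, toReal_nsmul, ← smul_sub]
    exact hbase j
  · have h1 := mem_coneOf (w := genVec t z i) i
    have h2 : genVec t z i i = z := if_pos rfl
    rw [h2] at h1
    have h3 := coneOf_add (hbase j) (coneOf_smul hk h1)
    have e : toReal (k • (t j + z)) - toReal (k • t i) =
        (k : ℝ) • (toReal (t j) - toReal (t i)) + (k : ℝ) • toReal z := by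
      rw [toReal_nsmul, toReal_nsmul, toReal_add, smul_add, smul_sub]
      abel
    rw [e]
    exact h3

/-- `∑_j ρ_j g_j = 0` for the generators `g = genVec t z i` and `ρ = rho c s i`. -/
theorem k1_rel {t : J → Fin n → ℤ} {z : Fin n → ℤ} {c : J → ℤ} {s : ℤ} (h : Sys t z c s) (i : J) :
    ∑ j, rho c s i j • genVec t z i j = 0 := by
  have e : ∀ j, rho c s i j • genVec t z i j =
      (if j = i then s • z else 0) - c j • (t j - t i) := by
    intro j
    unfold rho genVec
    by_cases hj : j = i
    · rw [if_pos hj, if_pos hj, if_pos hj, hj, sub_self, smul_zero, sub_zero]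
    · rw [if_neg hj, if_neg hj, if_neg hj, neg_smul, zero_sub]
  simp only [e]
  rw [Finset.sum_sub_distrib, Finset.sum_ite_eq' Finset.univ i (fun _ => s • z),
    if_pos (Finset.mem_univ i)]
  simp only [smul_sub]
  rw [Finset.sum_sub_distrib, ← Finset.sum_smul, h.sum_c, zero_smul, sub_zero, h.rel, sub_self]
end Pool.Agent.Lib.H84G
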