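import Pool.Agent.Lib.H84G.K1

/-!
# K2: the vertex cone at `k t_i`
-/

set_option autoImplicit false

namespace Pool.Agent.Lib.H84G

variable {n : ℕ} {J : Type} [Fintype J] [DecidableEq J]

theorem k2_smul {P : Set (Fin n → ℝ)} {v : Fin n → ℤ} {x : Fin n → ℝ} {r : ℝ} (hr : 0 ≤ r)
    (hx : x ∈ vertexCone P v) : r • x ∈ vertexCone P v := by
  unfold vertexCone at hx ⊢
  rw [SetLike.mem_coe] at hx ⊢
  exact Submodule.smul_mem _ (⟨r, hr⟩ : {c : ℝ // 0 ≤ c}) hx

theorem k2_add {P : Set (Fin n → ℝ)} {v : Fin n → ℤ} {x y : Fin n → ℝ}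
    (hx : x ∈ vertexCone P v) (hy : y ∈ vertexCone P v) : x + y ∈ vertexCone P v := by
  unfold vertexCone at hx hy ⊢
  exact Submodule.add_mem _ hx hy

theorem k2_zero {P : Set (Fin n → ℝ)} {v : Fin n → ℤ} : (0 : Fin n → ℝ) ∈ vertexCone P v := by
  unfold vertexCone
  exact Submodule.zero_mem _

theorem k2_sum {ι : Type*} {P : Set (Fin n → ℝ)} {v : Fin n → ℤ} (S : Finset ι)
    (f : ι → Fin n → ℝ) (hf : ∀ i ∈ S, f i ∈ vertexCone P v) : ∑ i ∈ S, f i ∈ vertexCone P v := by
  unfold vertexCone at hf ⊢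
  exact Submodule.sum_mem _ hf

/-- an edge in the direction `g` of length `k` gives `g` in the cone -/
theorem k2_edge {P : Set (Fin n → ℝ)} {v g : Fin n → ℤ} {k : ℕ} (hk : 1 ≤ k)
    (h : IsEdge P v (v + k • g)) : toReal g ∈ vertexCone P v := by
  have hk' : (k : ℝ) ≠ 0 := by
    have : k ≠ 0 := by omega
    exact_mod_cast this
  have h1 : toReal (v + k • g) - toReal v ∈ vertexCone P v := by
    unfold vertexCone
    exact Submodule.subset_span ⟨v + k • g, h, rfl⟩
  have h2 := k2_smul (r := (k : ℝ)⁻¹) (by positivity) h1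
  have e : (k : ℝ)⁻¹ • (toReal (v + k • g) - toReal v) = toReal g := by
    rw [toReal_add, toReal_nsmul, add_sub_cancel_left, smul_smul, inv_mul_cancel₀ hk', one_smul]
  rwa [e] at h2

/-- Every generator lies in the vertex cone. For `j = i`: `e1_vert` (then scale by `1/k`). For
`j ≠ i`: if some `l₀ ≠ i, j` has `c l₀ = 1`: `e1_edge` (and scale). Otherwise, as there are two
indices with `c = 1`, `c i = c j = 1` and `c l ≤ 0` for all `l ≠ i, j`, and by `k1_rel`
`g_j = s z + ∑_{l ≠ i, j} (- c l) g_l` with non-negative coefficients, where every `g_l`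
(`l ≠ i, j`) is in the cone by `e1_edge` (with `l₀ = j`) and `z` is by `e1_vert`. -/
theorem k1_mem {t : J → Fin n → ℤ} {z : Fin n → ℤ} {c : J → ℤ} {s : ℤ} (h : Sys t z c s)
    (k : ℕ) (hk : 1 ≤ k) (i j : J) :
    toReal (genVec t z i j) ∈ vertexCone (poly (vset k t z)) (k • t i) := by
  have hz : toReal z ∈ vertexCone (poly (vset k t z)) (k • t i) := by
    apply k2_edge hk
    rw [← smul_add]
    exact e1_vert h k hk i
  have hedge : ∀ l l₀, i ≠ l → l₀ ≠ i → l₀ ≠ l → c l₀ = 1 →
      toReal (genVec t z i l) ∈ vertexCone (poly (vset k t z)) (k • t i) := by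
    intro l l₀ h1 h2 h3 h4
    have e : genVec t z i l = t l - t i := if_neg (Ne.symm h1)
    rw [e]
    apply k2_edge hk
    rw [← smul_add, add_sub_cancel]
    exact e1_edge h k hk i l l₀ h1 h2 h3 h4
  by_cases hji : j = i
  · have e : genVec t z i j = z := if_pos hji
    rw [e]
    exact hz
  by_cases hex : ∃ l₀, l₀ ≠ i ∧ l₀ ≠ j ∧ c l₀ = 1
  · obtain ⟨l₀, h1, h2, h3⟩ := hex
    exact hedge j l₀ (Ne.symm hji) h1 h2 h3
  · push Not at hex
    -- `c j = 1`
    have hcj : c j = 1 := by
      obtain ⟨l, hl, hli⟩ := Finset.exists_mem_ne (s := Finset.univ.filter fun j => c j = 1)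
        (by have := h.pos; omega) i
      have hcl := (Finset.mem_filter.1 hl).2
      by_cases hlj : l = j
      · rw [← hlj]; exact hcl
      · exact absurd hcl (hex l hli hlj)
    have hrel := k1_rel h i
    have hrho : rho c s i j = -1 := by
      unfold rho
      rw [if_neg hji, hcj]
    rw [← Finset.add_sum_erase Finset.univ _ (Finset.mem_univ j), hrho, neg_smul, one_smul] at hrel
    have hg : genVec t z i j = ∑ l ∈ Finset.univ.erase j, rho c s i l • genVec t z i l := by
      rw [neg_add_eq_zero] at hrel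
      exact hrel
    rw [hg, toReal_sum]
    refine k2_sum _ _ fun l hl => ?_
    have hlj : l ≠ j := Finset.ne_of_mem_erase hl
    rw [toReal_zsmul]
    by_cases hli : l = i
    · have e : genVec t z i l = z := if_pos hli
      have e2 : rho c s i l = s := if_pos hli
      rw [e, e2]
      exact k2_smul (by have := h.two_le; exact_mod_cast (by omega : (0 : ℤ) ≤ s)) hz
    · have e2 : rho c s i l = - c l := if_neg hli
      have h3 : 0 ≤ - c l := by
        rcases h.c_val l with h1 | h1 | h1
        · omega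
        · exact absurd h1 (hex l hli hlj)
        · omega
      rw [e2]
      exact k2_smul (by exact_mod_cast h3) (hedge l j (Ne.symm hli) hji (Ne.symm hlj) hcj)

/-- As `vertexCone_eq` in Base, from `k1_sub` and `k1_mem`. -/
theorem k1_cone {t : J → Fin n → ℤ} {z : Fin n → ℤ} {c : J → ℤ} {s : ℤ} (h : Sys t z c s)
    (k : ℕ) (hk : 1 ≤ k) (i : J) :
    vertexCone (poly (vset k t z)) (k • t i) = coneOf (genVec t z i) := by
  apply Set.Subset.antisymm
  · intro x hx
    unfold vertexCone at hx
    rw [SetLike.mem_coe] at hx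
    induction hx using Submodule.span_induction with
    | mem y hy =>
      obtain ⟨u, hu, rfl⟩ := hy
      exact k1_sub k i u (isVertex_mem hu.2.2.1)
    | zero => exact zero_mem_coneOf
    | add y z _ _ hy hz => exact coneOf_add hy hz
    | smul c y _ hy => exact coneOf_smul c.2 hy
  · rintro x ⟨a, ha, rfl⟩
    exact k2_sum _ _ fun j _ => k2_smul (ha j) (k1_mem h k hk i j)

end Pool.Agent.Lib.H84G
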