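import Pool.Agent.Lib.H84G.C1

/-!
# N1: a necessary condition for membership in `k Q`
-/

set_option autoImplicit false

open Pointwise

namespace Pool.Agent.Lib.H84G

/-- the convex set of the condition -/
def n1_set (N k : ℕ) : Set (Fin (N + 1) → ℝ) :=
  {x | ∃ w : ℝ, 0 ≤ w ∧ (∀ l, l ≠ 0 → w * (av N k l : ℝ) ≤ x l) ∧
      w + ∑ l ∈ Finset.univ.erase (0 : Fin (N + 1)), x l ≤ k ∧
      (2 * k + 2) * w ≤ x 0 ∧ x 0 ≤ (2 * k + 2) * w + k}

theorem n1_convex (N k : ℕ) : Convex ℝ (n1_set N k) := by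
  rintro x ⟨w, h1, h2, h3, h4, h5⟩ y ⟨w', g1, g2, g3, g4, g5⟩ a b ha hb hab
  refine ⟨a * w + b * w', by positivity, ?_, ?_, ?_, ?_⟩
  · intro l hl
    simp only [Pi.add_apply, Pi.smul_apply, smul_eq_mul]
    have := mul_le_mul_of_nonneg_left (h2 l hl) ha
    have := mul_le_mul_of_nonneg_left (g2 l hl) hb
    linarith
  · simp only [Pi.add_apply, Pi.smul_apply, smul_eq_mul]
    rw [Finset.sum_add_distrib, ← Finset.mul_sum, ← Finset.mul_sum]
    have e1 := mul_le_mul_of_nonneg_left h3 ha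
    have e2 := mul_le_mul_of_nonneg_left g3 hb
    have e3 : a * (k : ℝ) + b * k = k := by rw [← add_mul, hab, one_mul]
    linarith
  · simp only [Pi.add_apply, Pi.smul_apply, smul_eq_mul]
    have := mul_le_mul_of_nonneg_left h4 ha
    have := mul_le_mul_of_nonneg_left g4 hb
    linarith
  · simp only [Pi.add_apply, Pi.smul_apply, smul_eq_mul]
    have := mul_le_mul_of_nonneg_left h5 ha
    have := mul_le_mul_of_nonneg_left g5 hb
    have e3 : a * (k : ℝ) + b * k = k := by rw [← add_mul, hab, one_mul]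
    linarith

theorem n1_unit (N k : ℕ) (h : 2 * k ≤ N) (j : Option (Fin (N + 1))) :
    ∃ w : ℤ, 0 ≤ w ∧ (∀ l, l ≠ 0 → w * av N k l ≤ tt N k j l) ∧
      w + ∑ l ∈ Finset.univ.erase (0 : Fin (N + 1)), tt N k j l ≤ 1 ∧
      (2 * k + 2) * w = tt N k j 0 := by
  rcases j with _ | l
  · rw [tt_none]
    exact ⟨0, le_rfl, by simp, by simp, by simp⟩
  · by_cases hl : l = 0
    · subst hl
      rw [tt_zero]
      refine ⟨1, zero_le_one, by simp, ?_, by simp [av]⟩
      rw [c1_sum_av N k h]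
      norm_num
    · rw [tt_some N k l hl]
      refine ⟨0, le_rfl, ?_, ?_, ?_⟩
      · intro l' _
        rw [zero_mul, Pi.single_apply]
        split_ifs <;> norm_num
      · rw [Finset.sum_eq_single_of_mem l (Finset.mem_erase.2 ⟨hl, Finset.mem_univ _⟩)
          (fun b _ hb => Pi.single_eq_of_ne hb _), Pi.single_eq_same]
        norm_num
      · rw [Pi.single_eq_of_ne (Ne.symm hl), mul_zero]

theorem n1_pt (N k : ℕ) (h : 2 * k ≤ N) (j : Option (Fin (N + 1))) (ε : ℤ) (hε : 0 ≤ ε)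
    (hε1 : ε ≤ 1) : toReal ((k : ℤ) • (tt N k j + ε • zz N)) ∈ n1_set N k := by
  obtain ⟨w, h1, h2, h3, h4⟩ := n1_unit N k h j
  have hz0 : zz N 0 = 1 := by simp [zz]
  have hz : ∀ l, l ≠ 0 → zz N l = 0 := fun l hl => by simp [zz, hl]
  have hv0 : ((k : ℤ) • (tt N k j + ε • zz N)) 0 = k * (tt N k j 0 + ε) := by
    simp [hz0]
  have hv : ∀ l, l ≠ 0 → ((k : ℤ) • (tt N k j + ε • zz N)) l = k * tt N k j l := by
    intro l hl
    simp [hz l hl]
  have hk0 : (0 : ℤ) ≤ k := Int.natCast_nonneg k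
  refine ⟨((k * w : ℤ) : ℝ), by exact_mod_cast mul_nonneg hk0 h1, ?_, ?_, ?_, ?_⟩
  · intro l hl
    have h5 : (k * w : ℤ) * av N k l ≤ ((k : ℤ) • (tt N k j + ε • zz N)) l := by
      rw [hv l hl, mul_assoc]
      exact mul_le_mul_of_nonneg_left (h2 l hl) hk0
    unfold toReal
    exact_mod_cast h5
  · have h5 : (k * w : ℤ) + ∑ l ∈ Finset.univ.erase (0 : Fin (N + 1)),
        ((k : ℤ) • (tt N k j + ε • zz N)) l ≤ k := by
      rw [Finset.sum_congr rfl fun l hl => hv l (Finset.ne_of_mem_erase hl), ← Finset.mul_sum,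
        ← mul_add]
      have := mul_le_mul_of_nonneg_left h3 hk0
      linarith
    unfold toReal
    exact_mod_cast h5
  · have h5 : (2 * k + 2 : ℤ) * (k * w) ≤ ((k : ℤ) • (tt N k j + ε • zz N)) 0 := by
      rw [hv0, ← h4]
      nlinarith [mul_nonneg hk0 hε]
    unfold toReal
    exact_mod_cast h5
  · have h5 : ((k : ℤ) • (tt N k j + ε • zz N)) 0 ≤ (2 * k + 2 : ℤ) * (k * w) + k := by
      rw [hv0, ← h4]
      have := mul_le_mul_of_nonneg_left hε1 hk0
      nlinarith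
    unfold toReal
    exact_mod_cast h5

/-- `x ∈ k Q` implies: there is `w` with `0 ≤ w`, `w av_l ≤ x_l` for `l ≠ 0`,
`w + ∑_{l ≠ 0} x_l ≤ k`, `s w ≤ x_0 ≤ s w + k`. The set of such `x` is convex (take the convex
combination of the `w`) and contains the points `k t_j` and `k (t_j + z)`: `w = k` at `j = some 0`,
`w = 0` otherwise. -/
theorem n1_of_mem (N k : ℕ) (h : 2 * k ≤ N) (x : Fin (N + 1) → ℝ)
    (hx : x ∈ poly (vset k (tt N k) (zz N))) :
    ∃ w : ℝ, 0 ≤ w ∧ (∀ l, l ≠ 0 → w * (av N k l : ℝ) ≤ x l) ∧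
      w + ∑ l ∈ Finset.univ.erase (0 : Fin (N + 1)), x l ≤ k ∧
      (2 * k + 2) * w ≤ x 0 ∧ x 0 ≤ (2 * k + 2) * w + k := by
  have hsub : poly (vset k (tt N k) (zz N)) ⊆ n1_set N k := by
    refine convexHull_min ?_ (n1_convex N k)
    rintro _ ⟨v, hv, rfl⟩
    obtain ⟨j, h1 | h1⟩ := mem_vset.1 (Finset.mem_coe.1 hv)
    · have := n1_pt N k h j 0 le_rfl zero_le_one
      rw [zero_smul, add_zero, natCast_zsmul] at this
      rw [h1]
      exact this
    · have := n1_pt N k h j 1 zero_le_one le_rfl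
      rw [one_smul, natCast_zsmul] at this
      rw [h1]
      exact this
  exact hsub hx

end Pool.Agent.Lib.H84G
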