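import Pool.Agent.Lib.H84G.K2
import Pool.Agent.Lib.H84G.G4

/-!
# P1: `Γ_P = 0` for `P = k Q`
-/

set_option autoImplicit false

namespace Pool.Agent.Lib.H84G

variable {n : ℕ} {J : Type} [Fintype J] [DecidableEq J]

theorem p1_cone {t : J → Fin n → ℤ} {z : Fin n → ℤ} {c : J → ℤ} {s : ℤ} (h : Sys t z c s)
    (k : ℕ) (hk : 1 ≤ k) (i : J) : GammaCone (vertexCone (poly (vset k t z)) (k • t i)) = 0 := by
  rw [k1_cone h k hk i]
  exact g2_gamma h i

/-- The vertices are in `vset` (`isVertex_mem`), so they are `k t_i` (`k1_cone`, `g2_gamma`) or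
`k (t_i + z)` (the same for the mirrored system); the set of the values is `{0}`
(non-empty by `e1_vertex`; `J` is non-empty by `h.pos`). -/
theorem p1_gamma {t : J → Fin n → ℤ} {z : Fin n → ℤ} {c : J → ℤ} {s : ℤ} (h : Sys t z c s)
    (k : ℕ) (hk : 1 ≤ k) : Gamma (poly (vset k t z)) = 0 := by
  have hset : {x | ∃ v, IsVertex (poly (vset k t z)) v ∧
      x = GammaCone (vertexCone (poly (vset k t z)) v)} = {0} := by
    ext x
    rw [Set.mem_singleton_iff]
    constructor
    · rintro ⟨v, hv, rfl⟩
      obtain ⟨j, h1 | h1⟩ := mem_vset.1 (isVertex_mem hv)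
      · rw [h1]
        exact p1_cone h k hk j
      · have := p1_cone (m1_mirror h) k hk j
        rw [m1_vset] at this
        rw [h1]
        exact this
    · rintro rfl
      have hne : (Finset.univ.filter fun j => c j = 1).Nonempty := by
        rw [← Finset.card_pos]
        exact lt_of_lt_of_le (by norm_num) h.pos
      obtain ⟨j, -⟩ := hne
      exact ⟨k • t j, e1_vertex h k hk j, (p1_cone h k hk j).symm⟩
  unfold Gamma
  rw [hset, csSup_singleton]

end Pool.Agent.Lib.H84G
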