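import Pool.Agent.Lib.H84G.E1

/-!
# P2: lattice points of segments
-/

set_option autoImplicit false

namespace Pool.Agent.Lib.H84G

variable {n : ℕ} {J : Type} [Fintype J] [DecidableEq J]

/-- The lattice points of a segment form a finite set (proof inside `one_le_length` in Base). -/
theorem p2_finite (u v : Fin n → ℤ) :
    (latticePoints (segment ℝ (toReal u) (toReal v))).Finite := by
  apply (Set.finite_Icc (u ⊓ v) (u ⊔ v)).subset
  rintro x ⟨a, b, ha, hb, hab, hx⟩
  have hx' : ∀ j, a * (u j : ℝ) + b * (v j : ℝ) = (x j : ℝ) := by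
    intro j
    have := congrFun hx j
    simpa [toReal] using this
  constructor
  · intro j
    have h1 : ((min (u j) (v j) : ℤ) : ℝ) ≤ (x j : ℝ) := by
      rw [← hx' j]
      have e1 : ((min (u j) (v j) : ℤ) : ℝ) ≤ (u j : ℝ) := by exact_mod_cast min_le_left _ _
      have e2 : ((min (u j) (v j) : ℤ) : ℝ) ≤ (v j : ℝ) := by exact_mod_cast min_le_right _ _
      have : ((min (u j) (v j) : ℤ) : ℝ)
          = a * ((min (u j) (v j) : ℤ) : ℝ) + b * ((min (u j) (v j) : ℤ) : ℝ) := by
        rw [← add_mul, hab, one_mul]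
      rw [this]
      exact add_le_add (mul_le_mul_of_nonneg_left e1 ha) (mul_le_mul_of_nonneg_left e2 hb)
    exact_mod_cast h1
  · intro j
    have h1 : (x j : ℝ) ≤ ((max (u j) (v j) : ℤ) : ℝ) := by
      rw [← hx' j]
      have e1 : (u j : ℝ) ≤ ((max (u j) (v j) : ℤ) : ℝ) := by exact_mod_cast le_max_left _ _
      have e2 : (v j : ℝ) ≤ ((max (u j) (v j) : ℤ) : ℝ) := by exact_mod_cast le_max_right _ _
      have : ((max (u j) (v j) : ℤ) : ℝ)
          = a * ((max (u j) (v j) : ℤ) : ℝ) + b * ((max (u j) (v j) : ℤ) : ℝ) := by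
        rw [← add_mul, hab, one_mul]
      rw [this]
      exact add_le_add (mul_le_mul_of_nonneg_left e1 ha) (mul_le_mul_of_nonneg_left e2 hb)
    exact_mod_cast h1

/-- The segment from `k u` to `k v`, `u ≠ v`, contains the `k + 1` different lattice points
`k u + m (v - u)`, `m = 0, .., k`. -/
theorem p2_lower (k : ℕ) (hk : 1 ≤ k) {u v : Fin n → ℤ} (hne : u ≠ v) :
    k ≤ (latticePoints (segment ℝ (toReal (k • u)) (toReal (k • v)))).ncard - 1 := by
  have hk0 : (k : ℝ) ≠ 0 := by
    have : 0 < k := hk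
    exact_mod_cast this.ne'
  have hkpos : (0 : ℝ) < (k : ℝ) := by
    have : 0 < k := hk
    exact_mod_cast this
  have hinj : Function.Injective (fun m : ℕ => k • u + m • (v - u)) := by
    intro a b hab
    have h1 : a • (v - u) = b • (v - u) := add_left_cancel hab
    obtain ⟨j, hj⟩ : ∃ j, u j ≠ v j := by
      by_contra hcon
      push Not at hcon
      exact hne (funext hcon)
    have h2 := congrFun h1 j
    simp only [Pi.smul_apply, Pi.sub_apply] at h2
    simp only [nsmul_eq_mul] at h2
    have h3 : (v j - u j) ≠ 0 := sub_ne_zero.mpr (Ne.symm hj)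
    have h4 : (a : ℤ) = (b : ℤ) := mul_right_cancel₀ h3 h2
    exact_mod_cast h4
  have hsub : ((Finset.range (k + 1)).image (fun m : ℕ => k • u + m • (v - u)) :
      Set (Fin n → ℤ)) ⊆ latticePoints (segment ℝ (toReal (k • u)) (toReal (k • v))) := by
    intro x hx
    rw [Finset.coe_image] at hx
    obtain ⟨m, hm, rfl⟩ := hx
    have hm' : m ≤ k := by
      have := Finset.mem_range.mp (Finset.mem_coe.mp hm)
      omega
    have hmr : (m : ℝ) ≤ (k : ℝ) := by exact_mod_cast hm'
    refine ⟨1 - (m : ℝ) / k, (m : ℝ) / k, ?_, ?_, ?_, ?_⟩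
    · rw [sub_nonneg, div_le_one hkpos]
      exact hmr
    · positivity
    · ring
    · funext j
      simp only [toReal, Pi.add_apply, Pi.smul_apply, Pi.sub_apply]
      simp only [smul_eq_mul, nsmul_eq_mul]
      push_cast
      field_simp
      ring
  have h1 := Set.ncard_le_ncard hsub (p2_finite _ _)
  rw [Set.ncard_coe_finset, Finset.card_image_of_injective _ hinj, Finset.card_range] at h1
  omega
end Pool.Agent.Lib.H84G
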