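import Pool.Agent.Lib.H84G.Base

/-!
# Systems `(t, z, c, s)`

`t j` (`j ∈ J`) are lattice points, `z` is a lattice vector, and the only relation between the
`t j` (with total coefficient `0`) and `z` is `∑ c_j t_j = s z`, with `c_j ∈ {-1, 0, 1}`.
The polytope is `P = k Q`, `Q = conv {t_j, t_j + z}`.
-/

set_option autoImplicit false

open Pointwise

namespace Pool.Agent.Lib.H84G

variable {n : ℕ} {J : Type} [Fintype J] [DecidableEq J]

/-- A system: `∑ c_j t_j = s z` is the only relation. -/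
structure Sys (t : J → Fin n → ℤ) (z : Fin n → ℤ) (c : J → ℤ) (s : ℤ) : Prop where
  two_le : 2 ≤ s
  c_val : ∀ j, c j = 0 ∨ c j = 1 ∨ c j = -1
  sum_c : ∑ j, c j = 0
  rel : ∑ j, c j • t j = s • z
  pos : 2 ≤ (Finset.univ.filter fun j => c j = 1).card
  neg : 2 ≤ (Finset.univ.filter fun j => c j = -1).card
  kernel : ∀ (x : J → ℝ) (y : ℝ), ∑ j, x j = 0 → ∑ j, x j • toReal (t j) + y • toReal z = 0 →
    ∃ τ : ℝ, (∀ j, x j = τ * (c j : ℝ)) ∧ y = - τ * (s : ℝ)
  gen : ∀ u : Fin n → ℤ, ∃ (x : J → ℤ) (y : ℤ), ∑ j, x j = 0 ∧ u = ∑ j, x j • t j + y • z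
  func : ∀ (φ : J → ℤ) (φz : ℤ), ∑ j, c j * φ j = s * φz →
    ∃ (f : Fin n → ℤ) (κ : ℤ), (∀ j, dotZ f (t j) = φ j + κ) ∧ dotZ f z = φz

/-- The vertices of `k Q`. -/
def vset (k : ℕ) (t : J → Fin n → ℤ) (z : Fin n → ℤ) : Finset (Fin n → ℤ) :=
  Finset.univ.image (fun j => k • t j) ∪ Finset.univ.image (fun j => k • (t j + z))

/-- The generators of the vertex cone of `k Q` at `k t_i`: the vectors `t_j - t_i` (`j ≠ i`)
and, with index `i`, the vector `z`. -/
def genVec (t : J → Fin n → ℤ) (z : Fin n → ℤ) (i j : J) : Fin n → ℤ :=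
  if j = i then z else t j - t i

/-- The relation between the generators: `s z - ∑ c_j (t_j - t_i) = 0`. -/
def rho (c : J → ℤ) (s : ℤ) (i j : J) : ℤ := if j = i then s else - c j

omit [DecidableEq J] in
theorem mem_vset {k : ℕ} {t : J → Fin n → ℤ} {z v : Fin n → ℤ} :
    v ∈ vset k t z ↔ ∃ j, v = k • t j ∨ v = k • (t j + z) := by
  unfold vset
  simp only [Finset.mem_union, Finset.mem_image, Finset.mem_univ, true_and]
  constructor
  · rintro (⟨j, h⟩ | ⟨j, h⟩)
    · exact ⟨j, Or.inl h.symm⟩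
    · exact ⟨j, Or.inr h.symm⟩
  · rintro ⟨j, h | h⟩
    · exact Or.inl ⟨j, h.symm⟩
    · exact Or.inr ⟨j, h.symm⟩

theorem dotZ_zero (h : Fin n → ℤ) : dotZ h 0 = 0 := by simp [dotZ]

theorem dotZ_neg (h u : Fin n → ℤ) : dotZ h (-u) = - dotZ h u := by
  simp [dotZ]

theorem dotZ_neg_left (h u : Fin n → ℤ) : dotZ (-h) u = - dotZ h u := by
  simp [dotZ]

theorem dotZ_sub (h u v : Fin n → ℤ) : dotZ h (u - v) = dotZ h u - dotZ h v := by
  simp [dotZ, mul_sub, Finset.sum_sub_distrib]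

theorem dotZ_smul (h : Fin n → ℤ) (a : ℤ) (u : Fin n → ℤ) : dotZ h (a • u) = a * dotZ h u := by
  simp only [dotZ, Pi.smul_apply, smul_eq_mul, Finset.mul_sum]
  exact Finset.sum_congr rfl (fun j _ => by ring)

theorem dotZ_nsmul (h : Fin n → ℤ) (k : ℕ) (u : Fin n → ℤ) :
    dotZ h (k • u) = (k : ℤ) * dotZ h u := by
  simp only [dotZ, Pi.smul_apply, nsmul_eq_mul, Finset.mul_sum]
  exact Finset.sum_congr rfl (fun j _ => by ring)

theorem dotZ_sum {ι : Type*} (S : Finset ι) (h : Fin n → ℤ) (f : ι → Fin n → ℤ) :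
    dotZ h (∑ i ∈ S, f i) = ∑ i ∈ S, dotZ h (f i) := by
  classical
  induction S using Finset.induction_on with
  | empty => simp [dotZ]
  | insert a s ha ih => rw [Finset.sum_insert ha, Finset.sum_insert ha, dotZ_add, ih]

theorem toReal_neg (u : Fin n → ℤ) : toReal (-u) = - toReal u := by
  funext i; simp [toReal]

theorem toReal_zsmul (m : ℤ) (u : Fin n → ℤ) : toReal (m • u) = (m : ℝ) • toReal u := by
  funext i; simp [toReal]

end Pool.Agent.Lib.H84G
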